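import Pool.Agent.Lib.MP_107652_al.Defs

/-!
# The affine group of the complex line
-/

set_option autoImplicit false

namespace WGirth

/-- The affine map `z ↦ a z + b`. -/
@[ext] structure Aff where
  a : ℂˣ
  b : ℂ

namespace Aff

instance : Mul Aff := ⟨fun g h => ⟨g.a * h.a, g.b + g.a * h.b⟩⟩
instance : One Aff := ⟨⟨1, 0⟩⟩
instance : Inv Aff := ⟨fun g => ⟨g.a⁻¹, -((g.a⁻¹ : ℂˣ) : ℂ) * g.b⟩⟩

@[simp] theorem mul_a (g h : Aff) : (g * h).a = g.a * h.a := rfl
@[simp] theorem mul_b (g h : Aff) : (g * h).b = g.b + g.a * h.b := rfl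
@[simp] theorem one_a : (1 : Aff).a = 1 := rfl
@[simp] theorem one_b : (1 : Aff).b = 0 := rfl

instance : Group Aff :=
  Group.ofLeftAxioms
    (fun x y z => by
      ext
      · simp [mul_assoc]
      · simp; ring)
    (fun x => by ext <;> simp)
    (fun x => by
      have ha : (x⁻¹ : Aff).a = x.a⁻¹ := rfl
      have hb : (x⁻¹ : Aff).b = -((x.a⁻¹ : ℂˣ) : ℂ) * x.b := rfl
      ext
      · simp [ha]
      · simp [ha, hb])

/-- the linear part -/
def lin : Aff →* ℂˣ where
  toFun := Aff.a
  map_one' := rfl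
  map_mul' _ _ := rfl

@[simp] theorem lin_apply (g : Aff) : lin g = g.a := rfl

theorem pow_eq (g : Aff) (k : ℕ) :
    g ^ k = ⟨g.a ^ k, (∑ j ∈ Finset.range k, (g.a : ℂ) ^ j) * g.b⟩ := by
  induction k with
  | zero => ext <;> simp
  | succ k ih =>
    rw [pow_succ, ih]
    ext
    · simp [pow_succ]
    · simp only [mul_b, Finset.sum_range_succ, Units.val_pow_eq_pow_val]
      ring

/-- elements with linear part a nontrivial `k`-th root of unity have order dividing `k` -/
theorem pow_eq_one {g : Aff} {k : ℕ} (h1 : (g.a : ℂ) ≠ 1) (h2 : (g.a : ℂ) ^ k = 1) :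
    g ^ k = 1 := by
  rw [pow_eq]
  have h3 : (∑ j ∈ Finset.range k, (g.a : ℂ) ^ j) = 0 := by
    have h4 := geom_sum_mul (g.a : ℂ) k
    rw [h2, sub_self, mul_eq_zero] at h4
    rcases h4 with h4 | h4
    · exact h4
    · exact absurd (sub_eq_zero.mp h4) h1
  ext
  · simpa using h2
  · simp [h3]

/-- If `(g h)^k = (h g)^k` then `g` and `h` commute or the linear part of `g h` has norm one. -/
theorem comm_or_norm {g h : Aff} {k : ℕ} (hk : 1 ≤ k) (hgh : (g * h) ^ k = (h * g) ^ k) :
    g * h = h * g ∨ ‖(g.a : ℂ)‖ * ‖(h.a : ℂ)‖ = 1 := by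
  rw [pow_eq, pow_eq] at hgh
  have h1 := congrArg Aff.b hgh
  have hcomm : (h * g).a = (g * h).a := by simp [mul_comm]
  simp only [hcomm] at h1
  have h2 : (∑ j ∈ Finset.range k, ((g * h).a : ℂ) ^ j) * ((g * h).b - (h * g).b) = 0 := by
    rw [mul_sub, h1, sub_self]
  rcases mul_eq_zero.mp h2 with h3 | h3
  · right
    have h4 := geom_sum_mul ((g * h).a : ℂ) k
    rw [h3, zero_mul] at h4
    have h5 : ((g * h).a : ℂ) ^ k = 1 := (sub_eq_zero.mp h4.symm)
    have h6 : ‖((g * h).a : ℂ)‖ ^ k = 1 := by rw [← norm_pow, h5, norm_one]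
    have h7 : ‖((g * h).a : ℂ)‖ = 1 := by
      refine (pow_eq_one_iff_of_nonneg (norm_nonneg _) (by omega)).mp h6
    rw [← norm_mul]
    simpa using h7
  · left
    ext
    · simp [mul_comm]
    · exact sub_eq_zero.mp h3

/-- commuting is determined by the number `(1 - a) b' = (1 - a') b` -/
theorem commute_iff (g h : Aff) :
    g * h = h * g ↔ (1 - (g.a : ℂ)) * h.b = (1 - (h.a : ℂ)) * g.b := by
  constructor
  · intro hc
    have := congrArg Aff.b hc
    simp only [mul_b] at this
    linear_combination -this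
  · intro hc
    ext
    · simp [mul_comm]
    · simp only [mul_b]
      linear_combination -hc

/-- Commutation is transitive on nontrivial elements. -/
theorem trans {g h k : Aff} (hh : h ≠ 1) (h1 : g * h = h * g) (h2 : h * k = k * h) :
    g * k = k * g := by
  rw [commute_iff] at h1 h2 ⊢
  by_cases ha : (h.a : ℂ) = 1
  · have hb : h.b ≠ 0 := by
      intro hb
      apply hh
      ext
      · simpa using ha
      · simpa using hb
    rw [ha, sub_self, zero_mul] at h1
    rw [ha, sub_self, zero_mul] at h2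
    have e1 : 1 - (g.a : ℂ) = 0 := by
      rcases mul_eq_zero.mp h1 with h | h
      · exact h
      · exact absurd h hb
    have e2 : 1 - (k.a : ℂ) = 0 := by
      rcases mul_eq_zero.mp h2.symm with h | h
      · exact h
      · exact absurd h hb
    rw [e1, e2]
    ring
  · have hne : 1 - (h.a : ℂ) ≠ 0 := sub_ne_zero.mpr (Ne.symm ha)
    have e : (1 - (h.a : ℂ)) * ((1 - (g.a : ℂ)) * k.b) =
        (1 - (h.a : ℂ)) * ((1 - (k.a : ℂ)) * g.b) := by
      linear_combination (1 - (g.a : ℂ)) * h2 - (-(1 - (k.a : ℂ))) * h1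
    exact mul_left_cancel₀ hne e

end Aff

end WGirth
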