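import Pool.Agent.Lib.MP_107652_al.Spec

/-!
# Commuting elements of an even Artin group: determinants of exponent sums

A homomorphism to the Heisenberg group over `ZMod k`.
-/

set_option autoImplicit false

namespace WGirth.HeisDiv

/-- The Heisenberg group over `ZMod k`. -/
@[ext]
structure Heis (k : ℕ) where
  p : ZMod k
  q : ZMod k
  r : ZMod k

variable {k : ℕ}

instance : Mul (Heis k) := ⟨fun a b => ⟨a.p + b.p, a.q + b.q, a.r + b.r + a.p * b.q⟩⟩
instance : One (Heis k) := ⟨⟨0, 0, 0⟩⟩
instance : Inv (Heis k) := ⟨fun a => ⟨-a.p, -a.q, -a.r + a.p * a.q⟩⟩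

theorem mul_p (a b : Heis k) : (a * b).p = a.p + b.p := rfl
theorem mul_q (a b : Heis k) : (a * b).q = a.q + b.q := rfl
theorem mul_r (a b : Heis k) : (a * b).r = a.r + b.r + a.p * b.q := rfl
theorem one_p : (1 : Heis k).p = 0 := rfl
theorem one_q : (1 : Heis k).q = 0 := rfl
theorem one_r : (1 : Heis k).r = 0 := rfl
theorem inv_p (a : Heis k) : (a⁻¹).p = -a.p := rfl
theorem inv_q (a : Heis k) : (a⁻¹).q = -a.q := rfl
theorem inv_r (a : Heis k) : (a⁻¹).r = -a.r + a.p * a.q := rfl

instance : Group (Heis k) := Group.ofLeftAxioms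
  (by
    intro a b c
    ext
    · simp only [mul_p]; ring
    · simp only [mul_q]; ring
    · simp only [mul_r, mul_p, mul_q]; ring)
  (by
    intro a
    ext
    · simp only [mul_p, one_p]; ring
    · simp only [mul_q, one_q]; ring
    · simp only [mul_r, one_r, one_p]; ring)
  (by
    intro a
    ext
    · simp only [mul_p, inv_p, one_p]; ring
    · simp only [mul_q, inv_q, one_q]; ring
    · simp only [mul_r, inv_r, inv_p, one_r]; ring)

/-- first coordinate -/
def pHom (k : ℕ) : Heis k →* Multiplicative (ZMod k) where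
  toFun a := Multiplicative.ofAdd a.p
  map_one' := rfl
  map_mul' _ _ := rfl

/-- second coordinate -/
def qHom (k : ℕ) : Heis k →* Multiplicative (ZMod k) where
  toFun a := Multiplicative.ofAdd a.q
  map_one' := rfl
  map_mul' _ _ := rfl

/-- the central element -/
def zz (k : ℕ) : Heis k := ⟨0, 0, 1⟩

/-- the first generator -/
def xx (k : ℕ) : Heis k := ⟨1, 0, 0⟩

/-- the second generator -/
def yy (k : ℕ) : Heis k := ⟨0, 1, 0⟩

theorem zz_pow (n : ℕ) : (zz k) ^ n = ⟨0, 0, (n : ZMod k)⟩ := by
  induction n with
  | zero => ext <;> simp [one_p, one_q, one_r]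
  | succ n ih =>
    rw [pow_succ, ih]
    ext
    · simp [mul_p, zz]
    · simp [mul_q, zz]
    · simp [mul_r, zz]

theorem zz_pow_self : (zz k) ^ k = 1 := by
  rw [zz_pow]
  ext <;> simp [one_p, one_q, one_r]

theorem zz_comm (a : Heis k) : Commute a (zz k) := by
  show a * zz k = zz k * a
  ext
  · simp [mul_p, zz]
  · simp [mul_q, zz]
  · simp [mul_r, zz, add_comm]

theorem xy_eq : xx k * yy k = (yy k * xx k) * zz k := by
  ext
  · simp [mul_p, xx, yy, zz]
  · simp [mul_q, xx, yy, zz]
  · simp [mul_r, mul_p, xx, yy, zz]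

theorem xy_pow : (xx k * yy k) ^ k = (yy k * xx k) ^ k := by
  rw [xy_eq, (zz_comm (yy k * xx k)).mul_pow, zz_pow_self, mul_one]

theorem main : HeisDiv := by
  intro W _ _ Λ hΛ x hx i j hij g h hgh
  set k := half Λ i j with hk
  have hne : i ≠ j := hij.ne
  obtain ⟨f, hf⟩ := exists_hom (Γ := Λ) hΛ (G := Heis k)
    (fun v => if v = i then xx k else if v = j then yy k else 1) (by
      intro s t hst
      have hst' : s ≠ t := hst.ne
      by_cases h1 : s = i
      · subst h1
        have ht : t ≠ s := Ne.symm hst'
        by_cases h2 : t = j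
        · subst h2
          simp only [if_true, if_neg ht, ← hk]
          exact xy_pow
        · simp only [if_true, if_neg ht, if_neg h2, mul_one, one_mul]
      · by_cases h2 : s = j
        · subst h2
          by_cases h3 : t = i
          · subst h3
            simp only [if_true, if_neg h1]
            rw [half_comm, ← hk]
            exact xy_pow.symm
          · have h4 : t ≠ s := Ne.symm hst'
            simp only [if_true, if_neg h1, if_neg h3, if_neg h4, mul_one, one_mul]
        · simp only [if_neg h1, if_neg h2, mul_one, one_mul])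
  -- coordinates
  have hP : (pHom k).comp f =
      (AddMonoidHom.toMultiplicative (Int.castAddHom (ZMod k))).comp (x i) := by
    apply hom_ext
    intro v
    rw [MonoidHom.comp_apply, MonoidHom.comp_apply, hf, hx]
    by_cases h1 : v = i
    · subst h1
      simp [pHom, xx]
    · have h1' : i ≠ v := Ne.symm h1
      by_cases h2 : v = j
      · subst h2
        simp [pHom, yy, h1, h1']
      · simp [pHom, h1, h2, h1', one_p]
  have hQ : (qHom k).comp f =
      (AddMonoidHom.toMultiplicative (Int.castAddHom (ZMod k))).comp (x j) := by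
    apply hom_ext
    intro v
    rw [MonoidHom.comp_apply, MonoidHom.comp_apply, hf, hx]
    by_cases h1 : v = i
    · subst h1
      have h3 : j ≠ v := Ne.symm hne
      simp [qHom, xx, h3]
    · by_cases h2 : v = j
      · subst h2
        simp [qHom, yy, h1]
      · have h2' : j ≠ v := Ne.symm h2
        simp [qHom, h1, h2, h2', one_q]
  have hp : ∀ g, (f g).p = ((Multiplicative.toAdd (x i g) : ℤ) : ZMod k) := fun g => by
    have := DFunLike.congr_fun hP g
    exact this
  have hq : ∀ g, (f g).q = ((Multiplicative.toAdd (x j g) : ℤ) : ZMod k) := fun g => by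
    have := DFunLike.congr_fun hQ g
    exact this
  have h1 : f g * f h = f h * f g := by rw [← map_mul, hgh, map_mul]
  have h2 := congrArg Heis.r h1
  rw [mul_r, mul_r, hp, hp, hq, hq] at h2
  rw [← ZMod.intCast_zmod_eq_zero_iff_dvd]
  push_cast
  linear_combination h2

end WGirth.HeisDiv

namespace WGirth

theorem heisDiv : HeisDiv := WGirth.HeisDiv.main

end WGirth
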