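import Pool.Agent.Lib.MP_107652_al.Spec

set_option autoImplicit false

open Finset

namespace WGirth

namespace ExpHom

/-- the product homomorphism -/
noncomputable def ph {V : Type} [Fintype V] {G A : Type} [Group G] [CommGroup A]
    (x : V → (G →* Multiplicative ℤ)) (a : V → A) : G →* A where
  toFun g := ∏ i, a i ^ (Multiplicative.toAdd (x i g))
  map_one' := by simp
  map_mul' g h := by
    simp only [map_mul, toAdd_mul, zpow_add, Finset.prod_mul_distrib]

end ExpHom

theorem expHom : ExpHom := by
  intro V _ _ Γ hΓ
  have hx : ∀ i : V, ∃ f : Artin Γ →* Multiplicative ℤ, ∀ v,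
      f (gen Γ v) = if i = v then Multiplicative.ofAdd 1 else 1 := by
    intro i
    refine exists_hom hΓ (fun v => if i = v then Multiplicative.ofAdd 1 else 1) ?_
    intro s t _
    rw [mul_comm]
  choose x hx using hx
  refine ⟨x, hx, fun A _ f g => ?_⟩
  have h : f = ExpHom.ph x (fun i => f (gen Γ i)) := by
    apply hom_ext
    intro j
    change f (gen Γ j) = ∏ i, f (gen Γ i) ^ (Multiplicative.toAdd (x i (gen Γ j)))
    rw [Finset.prod_eq_single j]
    · rw [hx, if_pos rfl]
      simp
    · intro b _ hb
      rw [hx, if_neg hb]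
      simp
    · intro h
      exact absurd (Finset.mem_univ j) h
  exact DFunLike.congr_fun h g

end WGirth
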