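import Pool.Agent.Lib.MP_107652_al.Spec

/-!
# MP_107652_al: affine representations of even Artin groups
-/

set_option autoImplicit false

open Finset

namespace WGirth

namespace Reps

/-- the primitive root of unity -/
noncomputable def zt (k : ℕ) : ℂ := Complex.exp (2 * Real.pi * Complex.I / k)

theorem zt_prim {k : ℕ} (hk : 2 ≤ k) : IsPrimitiveRoot (zt k) k :=
  Complex.isPrimitiveRoot_exp k (by omega)

theorem zt_ne_one {k : ℕ} (hk : 2 ≤ k) : zt k ≠ 1 := (zt_prim hk).ne_one (by omega)

theorem zt_pow {k : ℕ} (hk : 2 ≤ k) : zt k ^ k = 1 := (zt_prim hk).pow_eq_one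

theorem zt_ne_zero (k : ℕ) : zt k ≠ 0 := Complex.exp_ne_zero _

theorem zt_half_ne_zero (k : ℕ) : zt k / 2 ≠ 0 := div_ne_zero (zt_ne_zero k) (by norm_num)

theorem zt_norm {k : ℕ} (hk : 2 ≤ k) : ‖zt k‖ = 1 :=
  Complex.norm_eq_one_of_pow_eq_one (zt_pow hk) (by omega)

/-- an affine map with fixed point `1` -/
def fixOne (a : ℂˣ) : Aff := ⟨a, 1 - a⟩

/-- an affine map with fixed point `0` -/
def fixZero (a : ℂˣ) : Aff := ⟨a, 0⟩

theorem fixOne_comm (a b : ℂˣ) : fixOne a * fixOne b = fixOne b * fixOne a := by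
  rw [Aff.commute_iff]
  simp only [fixOne]
  ring

/-- the number two as a unit -/
noncomputable def two : ℂˣ := Units.mk0 2 (by norm_num)

theorem two_val : (two : ℂ) = 2 := rfl

theorem not_comm {a : ℂˣ} (ha : (a : ℂ) ≠ 1) : fixZero two * fixOne a ≠ fixOne a * fixZero two := by
  rw [Ne, Aff.commute_iff]
  simp only [fixOne, fixZero, two_val, mul_zero, mul_eq_zero, not_or]
  refine ⟨by norm_num, ?_⟩
  intro h
  exact ha (by linear_combination -h)

theorem pow_eq_of_one_left {g h : Aff} (k : ℕ) (hg : g = 1) : (g * h) ^ k = (h * g) ^ k := by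
  rw [hg, one_mul, mul_one]

theorem pow_eq_of_one_right {g h : Aff} (k : ℕ) (hh : h = 1) : (g * h) ^ k = (h * g) ^ k := by
  rw [hh, one_mul, mul_one]

/-- the linear part of a product is a root of unity -/
theorem pow_both {k : ℕ} (hk : 2 ≤ k) {a : ℂˣ} (ha : (a : ℂ) = zt k / 2) :
    (fixZero two * fixOne a) ^ k = 1 ∧ (fixOne a * fixZero two) ^ k = 1 := by
  have e1 : ((fixZero two * fixOne a).a : ℂ) = zt k := by
    rw [Aff.mul_a, Units.val_mul]
    simp only [fixOne, fixZero, two_val, ha]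
    ring
  have e2 : ((fixOne a * fixZero two).a : ℂ) = zt k := by
    rw [Aff.mul_a, Units.val_mul]
    simp only [fixOne, fixZero, two_val, ha]
    ring
  refine ⟨Aff.pow_eq_one ?_ ?_, Aff.pow_eq_one ?_ ?_⟩
  · rw [e1]; exact zt_ne_one hk
  · rw [e1]; exact zt_pow hk
  · rw [e2]; exact zt_ne_one hk
  · rw [e2]; exact zt_pow hk

end Reps

open Reps

theorem starRep : StarRep := by
  intro W _ _ Λ hΛ i B hB hiB hBi
  obtain ⟨b₀, hb₀⟩ := hB
  -- the images
  let a : W → ℂˣ := fun b => Units.mk0 (zt (half Λ i b) / 2) (zt_half_ne_zero _)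
  have ha : ∀ b, (a b : ℂ) = zt (half Λ i b) / 2 := fun b => rfl
  let g : W → Aff := fun j => if j = i then fixZero two else if j ∈ B then fixOne (a j) else 1
  have gi : g i = fixZero two := by simp only [g, if_true]
  have gB : ∀ b ∈ B, g b = fixOne (a b) := by
    intro b hb
    have hbi : b ≠ i := by rintro rfl; exact hiB hb
    simp only [g, if_neg hbi, if_pos hb]
  have gO : ∀ b, b ≠ i → b ∉ B → g b = 1 := by
    intro b hbi hb
    simp only [g, if_neg hbi, if_neg hb]
  have hrel : ∀ s t, Λ.graph.Adj s t → (g s * g t) ^ half Λ s t = (g t * g s) ^ half Λ s t := by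
    intro s t hst
    have hne : s ≠ t := hst.ne
    by_cases hs : s = i
    · subst hs
      by_cases ht : t ∈ B
      · obtain ⟨h1, h2⟩ := pow_both (hBi t ht).2 (ha t)
        rw [gi, gB t ht, h1, h2]
      · exact pow_eq_of_one_right _ (gO t (Ne.symm hne) ht)
    by_cases ht : t = i
    · subst ht
      by_cases hsB : s ∈ B
      · obtain ⟨h1, h2⟩ := pow_both (hBi s hsB).2 (ha s)
        rw [gi, gB s hsB, half_comm, h1, h2]
      · exact pow_eq_of_one_left _ (gO s hs hsB)
    by_cases hsB : s ∈ B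
    · by_cases htB : t ∈ B
      · rw [gB s hsB, gB t htB, fixOne_comm]
      · exact pow_eq_of_one_right _ (gO t ht htB)
    · exact pow_eq_of_one_left _ (gO s hs hsB)
  obtain ⟨ρ, hρ⟩ := exists_hom hΛ g hrel
  refine ⟨ρ, ?_, gen Λ i, gen Λ b₀, ?_⟩
  · intro j
    rw [hρ]
    by_cases hj : j = i
    · subst hj
      rw [gi, if_pos rfl]
      simp [fixZero, two_val]
    · rw [if_neg hj]
      by_cases hjB : j ∈ B
      · rw [gB j hjB, if_pos hjB]
        simp only [fixOne, ha, norm_div, zt_norm (hBi j hjB).2]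
        norm_num
      · rw [gO j hj hjB, if_neg hjB]
        simp
  · rw [hρ, hρ, gi, gB b₀ hb₀]
    apply not_comm
    rw [ha]
    intro h
    have h1 : ‖zt (half Λ i b₀) / 2‖ = 1 := by rw [h, norm_one]
    rw [norm_div, zt_norm (hBi b₀ hb₀).2] at h1
    norm_num at h1

theorem freeRep : FreeRep := by
  intro W _ _ Λ hΛ i j hij hadj m hm
  let g : W → Aff := fun l => if l = i then fixZero two else if l = j then fixOne (two ^ m) else 1
  have gi : g i = fixZero two := by simp only [g, if_true]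
  have gj : g j = fixOne (two ^ m) := by simp only [g, if_neg (Ne.symm hij), if_true]
  have gO : ∀ b, b ≠ i → b ≠ j → g b = 1 := by
    intro b hbi hb
    simp only [g, if_neg hbi, if_neg hb]
  have hrel : ∀ s t, Λ.graph.Adj s t → (g s * g t) ^ half Λ s t = (g t * g s) ^ half Λ s t := by
    intro s t hst
    have hne : s ≠ t := hst.ne
    by_cases hs : s = i
    · subst hs
      refine pow_eq_of_one_right _ (gO t (Ne.symm hne) ?_)
      rintro rfl
      exact hadj hst
    by_cases hs' : s = j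
    · subst hs'
      refine pow_eq_of_one_right _ (gO t ?_ (Ne.symm hne))
      rintro rfl
      exact hadj hst.symm
    · exact pow_eq_of_one_left _ (gO s hs hs')
  obtain ⟨ρ, hρ⟩ := exists_hom hΛ g hrel
  refine ⟨ρ, ?_, gen Λ i, gen Λ j, ?_⟩
  · intro l
    rw [hρ]
    by_cases hl : l = i
    · subst hl
      rw [gi, if_pos rfl]
      simp [fixZero, two_val]
    · rw [if_neg hl]
      by_cases hl' : l = j
      · subst hl'
        rw [gj, if_pos rfl]
        simp [fixOne, two_val]
      · rw [gO l hl hl', if_neg hl']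
        simp
  · rw [hρ, hρ, gi, gj]
    apply not_comm
    rw [Units.val_pow_eq_pow_val, two_val]
    intro h
    have h1 : ‖(2 : ℂ) ^ m‖ = 1 := by rw [h, norm_one]
    rw [norm_pow] at h1
    have h2 : (1 : ℝ) < ‖(2 : ℂ)‖ ^ m := one_lt_pow₀ (by norm_num) (by omega)
    linarith

end WGirth
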