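import Pool.Agent.Lib.MP_107652_al.Spec

/-!
# MP_107652_al: LemB, StarB, Ind3, Det3, CardEq
-/

set_option autoImplicit false

open Finset

namespace WGirth

namespace LemB

set_option maxRecDepth 100000 in
theorem key : ∀ a b c d e f : Fin 3,
    (fun u1 u2 v1 v2 w1 w2 : ℤ =>
      (0 ≤ u1 * u2) → (0 ≤ v1 * v2) → (0 ≤ w1 * w2) →
      ((u1 + v1 - w1) * (v2 - w2) - (v1 - w1) * (u2 + v2 - w2) ≠ 1) →
      ((u1 + v1 - w1) * (v2 - w2) - (v1 - w1) * (u2 + v2 - w2) ≠ -1) →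
      ((u1 + v1 - w1) * (u2 - w2) - (u1 - w1) * (u2 + v2 - w2) ≠ 1) →
      ((u1 + v1 - w1) * (u2 - w2) - (u1 - w1) * (u2 + v2 - w2) ≠ -1) →
      ((u1 + v1 - w1) % 2 = 0 ∧ (u2 + v2 - w2) % 2 = 0) ∨
      ((u1 + v1 - w1) * (v2 - w2) = (v1 - w1) * (u2 + v2 - w2) ∧
        (u1 + v1 - w1) * (u2 - w2) = (u1 - w1) * (u2 + v2 - w2)))
      ((a.val : ℤ) - 1) ((b.val : ℤ) - 1) ((c.val : ℤ) - 1) ((d.val : ℤ) - 1)
      ((e.val : ℤ) - 1) ((f.val : ℤ) - 1) := by
  decide +kernel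

theorem exf {x : ℤ} (h : |x| ≤ 1) : ∃ a : Fin 3, x = (a.val : ℤ) - 1 := by
  have h1 := abs_le.mp h
  refine ⟨⟨(x + 1).toNat, by omega⟩, ?_⟩
  simp only
  omega

theorem key' (u1 u2 v1 v2 w1 w2 : ℤ) (hu1 : |u1| ≤ 1) (hu2 : |u2| ≤ 1) (hv1 : |v1| ≤ 1)
    (hv2 : |v2| ≤ 1) (hw1 : |w1| ≤ 1) (hw2 : |w2| ≤ 1) :
      (0 ≤ u1 * u2) → (0 ≤ v1 * v2) → (0 ≤ w1 * w2) →
      ((u1 + v1 - w1) * (v2 - w2) - (v1 - w1) * (u2 + v2 - w2) ≠ 1) →
      ((u1 + v1 - w1) * (v2 - w2) - (v1 - w1) * (u2 + v2 - w2) ≠ -1) →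
      ((u1 + v1 - w1) * (u2 - w2) - (u1 - w1) * (u2 + v2 - w2) ≠ 1) →
      ((u1 + v1 - w1) * (u2 - w2) - (u1 - w1) * (u2 + v2 - w2) ≠ -1) →
      ((u1 + v1 - w1) % 2 = 0 ∧ (u2 + v2 - w2) % 2 = 0) ∨
      ((u1 + v1 - w1) * (v2 - w2) = (v1 - w1) * (u2 + v2 - w2) ∧
        (u1 + v1 - w1) * (u2 - w2) = (u1 - w1) * (u2 + v2 - w2)) := by
  obtain ⟨a, rfl⟩ := exf hu1
  obtain ⟨b, rfl⟩ := exf hu2
  obtain ⟨c, rfl⟩ := exf hv1
  obtain ⟨d, rfl⟩ := exf hv2
  obtain ⟨e, rfl⟩ := exf hw1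
  obtain ⟨f, rfl⟩ := exf hw2
  exact key a b c d e f

theorem tri {T : Type} [Fintype T] (f g h : T → ℤ) :
    ∑ i, ∑ j, ∑ l, f i * g j * h l = (∑ i, f i) * (∑ j, g j) * (∑ l, h l) := by
  rw [Finset.sum_mul_sum, Finset.sum_mul]
  refine Finset.sum_congr rfl fun i _ => ?_
  rw [Finset.sum_mul]
  refine Finset.sum_congr rfl fun j _ => ?_
  rw [Finset.mul_sum]

end LemB

theorem lemB : LemB := by
  intro xi yi xj yj xl yl h1 h2 h3 h4 h5 h6 h7 h8 h9 h10 h11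
  have hk := LemB.key' (xi - xj) (yi - yj) (xi - xl) (yi - yl) (xi - xj - xl) (yi - yj - yl)
    h1 h2 h4 h5 h7 h8 h3 h6 h9
  have e1 : xi - xj + (xi - xl) - (xi - xj - xl) = xi := by ring
  have e2 : yi - yj + (yi - yl) - (yi - yj - yl) = yi := by ring
  have e3 : (xi - xl) - (xi - xj - xl) = xj := by ring
  have e4 : (yi - yl) - (yi - yj - yl) = yj := by ring
  have e5 : (xi - xj) - (xi - xj - xl) = xl := by ring
  have e6 : (yi - yj) - (yi - yj - yl) = yl := by ring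
  rw [e1, e2, e3, e4, e5, e6] at hk
  have n1 : xi * yj - xj * yi ≠ 1 := fun h => h10 (by rw [h]; rfl)
  have n2 : xi * yj - xj * yi ≠ -1 := fun h => h10 (by rw [h]; rfl)
  have n3 : xi * yl - xl * yi ≠ 1 := fun h => h11 (by rw [h]; rfl)
  have n4 : xi * yl - xl * yi ≠ -1 := fun h => h11 (by rw [h]; rfl)
  rcases hk n1 n2 n3 n4 with h | h
  · exact Or.inl ⟨Int.even_iff.mpr h.1, Int.even_iff.mpr h.2⟩
  · exact Or.inr h

theorem starB : StarB := by
  intro V W kV kW M hD a b hab h1 i j l hij hil hjl h2 h3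
  obtain ⟨s1, s2, -⟩ := hD.star1 i j hij h2
  obtain ⟨t1, t2, -⟩ := hD.star1 i l hil h3
  obtain ⟨r1, r2⟩ := hD.star2 i j l hij hil hjl h2 h3
  have key : ∀ k : ℕ, 2 ≤ k → ∀ x : ℤ, (k : ℤ) ∣ x → |x| ≠ 1 := by
    intro k hk x hx hx1
    have h5 : (k : ℤ) ∣ 1 := by
      have := (dvd_abs (k : ℤ) x).mpr hx
      rwa [hx1] at this
    have h6 := Int.le_of_dvd one_pos h5
    omega
  exact lemB (M i a) (M i b) (M j a) (M j b) (M l a) (M l b) (s1 a) (s1 b) (s2 a b hab h1)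
    (t1 a) (t1 b) (t2 a b hab h1) (r1 a) (r1 b) (r2 a b hab h1)
    (key _ h2 _ (hD.heis a b hab h1 i j hij)) (key _ h3 _ (hD.heis a b hab h1 i l hil))

theorem ind3 : Ind3 := by
  intro T _ _ P Q R α β s s' h1 h2 h3 h4 h5 h6 hP hQ hR
  have huv : ∀ t, (P s * R s' - R s * P s') * (P s * Q t - Q s * P t) =
      (P s * Q s' - Q s * P s') * (P s * R t - R s * P t) := by
    intro t
    by_cases ht : t = s'
    · subst ht
      ring
    · rw [hQ t ht, hR t ht]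
      ring
  have h7 : (P s * R s' - R s * P s') * P s = 0 := by
    have e1 : ∑ t, α t * ((P s * R s' - R s * P s') * (P s * Q t - Q s * P t)) =
        ∑ t, α t * ((P s * Q s' - Q s * P s') * (P s * R t - R s * P t)) :=
      Finset.sum_congr rfl fun t _ => by rw [huv t]
    have e2 : ∑ t, α t * ((P s * R s' - R s * P s') * (P s * Q t - Q s * P t)) =
        (P s * R s' - R s * P s') * (P s * (∑ t, α t * Q t) - Q s * (∑ t, α t * P t)) := by
      simp only [Finset.mul_sum, ← Finset.sum_sub_distrib]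
      exact Finset.sum_congr rfl fun t _ => by ring
    have e3 : ∑ t, α t * ((P s * Q s' - Q s * P s') * (P s * R t - R s * P t)) =
        (P s * Q s' - Q s * P s') * (P s * (∑ t, α t * R t) - R s * (∑ t, α t * P t)) := by
      simp only [Finset.mul_sum, ← Finset.sum_sub_distrib]
      exact Finset.sum_congr rfl fun t _ => by ring
    rw [e2, e3, h1, h2, h3] at e1
    linarith [e1]
  have h8 : P s * R s' - R s * P s' = 0 := by
    rcases mul_eq_zero.mp h7 with h | h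
    · exact h
    · exact absurd h hP
  have h9 : ∀ t, P s * R t - R s * P t = 0 := by
    intro t
    by_cases ht : t = s'
    · subst ht
      exact h8
    · rw [hR t ht]
      ring
  have e4 : ∑ t, β t * (P s * R t - R s * P t) =
      P s * (∑ t, β t * R t) - R s * (∑ t, β t * P t) := by
    simp only [Finset.mul_sum, ← Finset.sum_sub_distrib]
    exact Finset.sum_congr rfl fun t _ => by ring
  have e5 : ∑ t, β t * (P s * R t - R s * P t) = 0 :=
    Finset.sum_eq_zero fun t _ => by rw [h9 t, mul_zero]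
  rw [e5, h4, h5] at e4
  apply hP
  linarith

theorem det3 : Det3 := by
  intro T _ x y z α β γ p hp a1 a2 a3 b1 b2 b3 c1 c2 c3 hD
  have e : ∑ i, ∑ j, ∑ l, α i * β j * γ l *
      (x i * (y j * z l - z j * y l) - y i * (x j * z l - z j * x l) +
        z i * (x j * y l - y j * x l)) =
      (∑ i, α i * x i) * (∑ j, β j * y j) * (∑ l, γ l * z l)
      - (∑ i, α i * x i) * (∑ j, β j * z j) * (∑ l, γ l * y l)
      - (∑ i, α i * y i) * (∑ j, β j * x j) * (∑ l, γ l * z l)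
      + (∑ i, α i * y i) * (∑ j, β j * z j) * (∑ l, γ l * x l)
      + (∑ i, α i * z i) * (∑ j, β j * x j) * (∑ l, γ l * y l)
      - (∑ i, α i * z i) * (∑ j, β j * y j) * (∑ l, γ l * x l) := by
    simp only [← LemB.tri, ← Finset.sum_sub_distrib, ← Finset.sum_add_distrib]
    refine Finset.sum_congr rfl fun i _ => Finset.sum_congr rfl fun j _ =>
      Finset.sum_congr rfl fun l _ => ?_
    ring
  rw [a1, a2, a3, b1, b2, b3, c1, c2, c3] at e
  have hdvd : (p : ℤ) ∣ ∑ i, ∑ j, ∑ l, α i * β j * γ l *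
      (x i * (y j * z l - z j * y l) - y i * (x j * z l - z j * x l) +
        z i * (x j * y l - y j * x l)) :=
    Finset.dvd_sum fun i _ => Finset.dvd_sum fun j _ => Finset.dvd_sum fun l _ =>
      Dvd.dvd.mul_left (hD i j l) _
  rw [e] at hdvd
  have h6 := Int.le_of_dvd (by norm_num) hdvd
  norm_num at h6
  omega

theorem cardEq : CardEq := by
  intro V W _ _ _ _ M N h1 h2
  have e1 : ∑ v, ∑ i, N v i * M i v = (Fintype.card V : ℤ) := by
    rw [Finset.sum_congr rfl fun v _ => h1 v v]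
    simp
  have e2 : ∑ i, ∑ v, M i v * N v i = (Fintype.card W : ℤ) := by
    rw [Finset.sum_congr rfl fun i _ => h2 i i]
    simp
  rw [Finset.sum_comm] at e1
  have e3 : ∑ i, ∑ v, N v i * M i v = ∑ i, ∑ v, M i v * N v i :=
    Finset.sum_congr rfl fun i _ => Finset.sum_congr rfl fun v _ => mul_comm _ _
  rw [e1, e2] at e3
  exact_mod_cast e3

end WGirth
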