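import Pool.Agent.Lib.MP_107652_al.Spec

/-!
# Weighted girth of complete graphs
-/

set_option autoImplicit false

open Finset

namespace WGirth

namespace Girth

open SimpleGraph

theorem le_wgirth {V : Type} {Γ : LGraph V} {n : ℕ}
    (h : ∀ (v : V) (p : Γ.graph.Walk v v), p.IsCycle → n ≤ weight Γ p) : (n : ℕ∞) ≤ wgirth Γ := by
  unfold wgirth
  refine le_iInf fun v => le_iInf fun p => le_iInf fun hp => ?_
  exact_mod_cast h v p hp

theorem wgirth_le {V : Type} {Γ : LGraph V} {v : V} (p : Γ.graph.Walk v v) (hp : p.IsCycle)
    {n : ℕ} (h : weight Γ p ≤ n) : wgirth Γ ≤ (n : ℕ∞) := by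
  unfold wgirth
  refine (iInf_le_of_le v (iInf_le_of_le p (iInf_le_of_le hp le_rfl))).trans ?_
  exact_mod_cast h

theorem len_le_weight {V : Type} (Γ : LGraph V) {v : V} (p : Γ.graph.Walk v v) :
    p.length ≤ weight Γ p := Nat.le_add_right _ _

end Girth

theorem girthSmall : GirthSmall := by
  intro V _ Γ hV
  unfold wgirth
  rw [iInf_eq_top]
  intro v
  rw [iInf_eq_top]
  intro p
  rw [iInf_eq_top]
  intro hp
  exfalso
  have h1 := hp.three_le_length
  have h2 := hp.support_nodup.length_le_card
  rw [List.length_tail, SimpleGraph.Walk.length_support] at h2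
  omega

theorem girthLow : GirthLow := by
  intro V _ Γ hcomp
  refine ⟨?_, ?_, ?_, ?_⟩
  · refine Girth.le_wgirth (n := 3) fun v p hp => ?_
    exact hp.three_le_length.trans (Girth.len_le_weight Γ p)
  · intro hL
    refine Girth.le_wgirth (n := 4) fun v p hp => ?_
    have h3 := hp.three_le_length
    rcases Nat.lt_or_ge 3 p.length with h4 | h4
    · exact le_trans h4 (Girth.len_le_weight Γ p)
    match p, hp with
    | .nil, hp => simp at h3
    | .cons h1 .nil, hp => simp at h3
    | .cons h1 (.cons h2 .nil), hp => simp at h3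
    | .cons (v := b) h1 (.cons (v := c) h2 (.cons h3' .nil)), hp =>
      have e1 := Γ.two_le s(v, b) h1
      have e2 := Γ.two_le s(b, c) h2
      have e3 := Γ.two_le s(c, v) h3'
      have := hL v b c h1.ne h2.ne h3'.ne.symm
      rw [Sym2.eq_swap (a := v) (b := c)] at this
      unfold weight
      simp only [SimpleGraph.Walk.length_cons, SimpleGraph.Walk.length_nil,
        SimpleGraph.Walk.edges_cons, SimpleGraph.Walk.edges_nil, List.countP_cons, List.countP_nil,
        decide_eq_true_eq]
      by_cases c1 : 3 ≤ Γ.label s(v, b)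
      · simp only [c1, if_true]; omega
      by_cases c2 : 3 ≤ Γ.label s(b, c)
      · simp only [c2, if_true]; omega
      by_cases c3 : 3 ≤ Γ.label s(c, v)
      · simp only [c3, if_true]; omega
      exact absurd (by omega) (this (by omega) (by omega))
    | .cons h1 (.cons h2 (.cons h3' (.cons h5 q))), hp =>
      simp only [SimpleGraph.Walk.length_cons] at h4
      omega
  · intro hL
    refine Girth.le_wgirth (n := 5) fun v p hp => ?_
    have h3 := hp.three_le_length
    rcases Nat.lt_or_ge 4 p.length with h4 | h4
    · exact le_trans h4 (Girth.len_le_weight Γ p)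
    match p, hp with
    | .nil, hp => simp at h3
    | .cons h1 .nil, hp => simp at h3
    | .cons h1 (.cons h2 .nil), hp => simp at h3
    | .cons (v := b) h1 (.cons (v := c) h2 (.cons h3' .nil)), hp =>
      have e1 := Γ.two_le s(v, b) h1
      have e2 := Γ.two_le s(b, c) h2
      have e3 := Γ.two_le s(c, v) h3'
      have f1 := hL v b c h1.ne h2.ne h3'.ne.symm
      have f2 := hL b c v h2.ne h3'.ne h1.ne.symm
      have f3 := hL c v b h3'.ne h1.ne h2.ne.symm
      unfold weight
      simp only [SimpleGraph.Walk.length_cons, SimpleGraph.Walk.length_nil,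
        SimpleGraph.Walk.edges_cons, SimpleGraph.Walk.edges_nil, List.countP_cons, List.countP_nil,
        decide_eq_true_eq]
      by_cases c1 : 3 ≤ Γ.label s(v, b) <;> by_cases c2 : 3 ≤ Γ.label s(b, c) <;>
        by_cases c3 : 3 ≤ Γ.label s(c, v) <;> simp only [c1, c2, c3, if_true, if_false] <;>
        first
          | omega
          | exact absurd (by omega) (f1 (by omega))
          | exact absurd (by omega) (f2 (by omega))
          | exact absurd (by omega) (f3 (by omega))
    | .cons (v := b) h1 (.cons (v := c) h2 (.cons (v := d) h3' (.cons h5 .nil))), hp =>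
      have e1 := Γ.two_le s(v, b) h1
      have e2 := Γ.two_le s(b, c) h2
      have hnd := hp.support_nodup
      simp at hnd
      have hvc : v ≠ c := by
        intro h
        subst h
        simp at hnd
      have f1 := hL v b c h1.ne h2.ne hvc
      unfold weight
      simp only [SimpleGraph.Walk.length_cons, SimpleGraph.Walk.length_nil,
        SimpleGraph.Walk.edges_cons, SimpleGraph.Walk.edges_nil, List.countP_cons, List.countP_nil,
        decide_eq_true_eq]
      by_cases c1 : 3 ≤ Γ.label s(v, b)
      · simp only [c1, if_true]; omega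
      by_cases c2 : 3 ≤ Γ.label s(b, c)
      · simp only [c2, if_true]; omega
      exact absurd (by omega) (f1 (by omega))
    | .cons h1 (.cons h2 (.cons h3' (.cons h5 (.cons h6 q)))), hp =>
      simp only [SimpleGraph.Walk.length_cons] at h4
      omega
  · intro hL
    refine Girth.le_wgirth (n := 6) fun v p hp => ?_
    have h3 := hp.three_le_length
    have h5 : p.edges.countP (fun e => decide (3 ≤ Γ.label e)) = p.edges.length := by
      rw [List.countP_eq_length]
      intro e he
      have he' := p.edges_subset_edgeSet he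
      have h6 := Γ.two_le e he'
      simp only [decide_eq_true_eq]
      have h7 : Γ.label e ≠ 2 := by
        induction e using Sym2.ind with
        | _ a b => exact hL a b (SimpleGraph.Adj.ne ((SimpleGraph.mem_edgeSet _).1 he'))
      omega
    unfold weight
    rw [h5, SimpleGraph.Walk.length_edges]
    omega

theorem girthUp : GirthUp := by
  intro V _ Γ hcomp a b c hab hbc hac
  have h1 := hcomp a b hab
  have h2 := hcomp b c hbc
  have h3 := hcomp c a hac.symm
  let p : Γ.graph.Walk a a := .cons h1 (.cons h2 (.cons h3 .nil))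
  have hp : p.IsCycle := by
    rw [SimpleGraph.Walk.cons_isCycle_iff]
    refine ⟨?_, ?_⟩
    · simp [hab.symm, hbc, hac.symm]
    · simp [hab, hac, hab.symm, hbc]
  have hw : weight Γ p = 3 + ((if 3 ≤ Γ.label s(a, b) then 1 else 0) +
      ((if 3 ≤ Γ.label s(b, c) then 1 else 0) + (if 3 ≤ Γ.label s(c, a) then 1 else 0))) := by
    unfold weight
    simp only [p, SimpleGraph.Walk.length_cons, SimpleGraph.Walk.length_nil,
        SimpleGraph.Walk.edges_cons, SimpleGraph.Walk.edges_nil, List.countP_cons, List.countP_nil,
        decide_eq_true_eq]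
    omega
  refine ⟨?_, ?_, ?_, ?_⟩
  · intro e1 e2 e3
    refine Girth.wgirth_le (n := 3) p hp ?_
    rw [hw, e1, e2, Sym2.eq_swap, e3]
    simp
  · intro e1 e2
    refine Girth.wgirth_le (n := 4) p hp ?_
    rw [hw, e1, e2]
    split_ifs <;> omega
  · intro e1
    refine Girth.wgirth_le (n := 5) p hp ?_
    rw [hw, e1]
    split_ifs <;> omega
  · refine Girth.wgirth_le (n := 6) p hp ?_
    rw [hw]
    split_ifs <;> omega

end WGirth
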