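import Mathlib

/-!
# Weighted girth of Artin groups: definitions
-/

set_option autoImplicit false

namespace WGirth

/-- A labelled graph: a simplicial graph with a label `≥ 2` on every edge (the value of `label`
on pairs that are not edges is irrelevant). -/
structure LGraph (V : Type) where
  graph : SimpleGraph V
  label : Sym2 V → ℕ
  two_le : ∀ e ∈ graph.edgeSet, 2 ≤ label e

/-- The alternating word `a b a ...` with `m` letters. -/
def alt {G : Type} [Monoid G] : ℕ → G → G → G
  | 0, _, _ => 1
  | m + 1, a, b => a * alt m b a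

/-- The relators of the Artin group: `s t s ... = t s t ...` (`m_st` letters) for every edge. -/
def rels {V : Type} (Γ : LGraph V) : Set (FreeGroup V) :=
  {r | ∃ s t, Γ.graph.Adj s t ∧
    r = alt (Γ.label s(s, t)) (FreeGroup.of s) (FreeGroup.of t) *
      (alt (Γ.label s(s, t)) (FreeGroup.of t) (FreeGroup.of s))⁻¹}

/-- The Artin group of a labelled graph. -/
abbrev Artin {V : Type} (Γ : LGraph V) : Type := PresentedGroup (rels Γ)

/-- The weight of a closed walk: the number of edges plus the number of edges with label at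
least `3`. -/
def weight {V : Type} (Γ : LGraph V) {v : V} (p : Γ.graph.Walk v v) : ℕ :=
  p.length + p.edges.countP (fun e => decide (3 ≤ Γ.label e))

/-- The weighted girth: the least weight of a cycle (`⊤` if there is no cycle). -/
noncomputable def wgirth {V : Type} (Γ : LGraph V) : ℕ∞ :=
  ⨅ (v : V) (p : Γ.graph.Walk v v) (_ : p.IsCycle), (weight Γ p : ℕ∞)

/-! ### Homomorphisms from an even Artin group -/

section hom

variable {V : Type} (Γ : LGraph V)

/-- the standard generators -/
def gen (v : V) : Artin Γ := PresentedGroup.of v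

theorem alt_two_mul {G : Type} [Monoid G] (k : ℕ) (a b : G) : alt (2 * k) a b = (a * b) ^ k := by
  induction k with
  | zero => simp [alt]
  | succ k ih =>
    have : 2 * (k + 1) = (2 * k + 1) + 1 := by ring
    rw [this]
    simp only [alt]
    rw [ih, ← mul_assoc, pow_succ']

theorem map_alt {G H : Type} [Monoid G] [Monoid H] (f : G →* H) (m : ℕ) (a b : G) :
    f (alt m a b) = alt m (f a) (f b) := by
  induction m generalizing a b with
  | zero => simp [alt]
  | succ m ih => simp [alt, ih]

/-- all labels are even -/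
def IsEven : Prop := ∀ s t, Γ.graph.Adj s t → Even (Γ.label s(s, t))

/-- half of the label -/
def half (s t : V) : ℕ := Γ.label s(s, t) / 2

theorem half_comm (s t : V) : half Γ s t = half Γ t s := by
  unfold half
  rw [Sym2.eq_swap]

variable {Γ}

theorem IsEven.label_eq (h : IsEven Γ) {s t : V} (hst : Γ.graph.Adj s t) :
    Γ.label s(s, t) = 2 * half Γ s t := by
  obtain ⟨k, hk⟩ := h s t hst
  unfold half
  omega

theorem IsEven.half_pos (h : IsEven Γ) {s t : V} (hst : Γ.graph.Adj s t) : 1 ≤ half Γ s t := by
  have h1 := h.label_eq hst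
  have h2 := Γ.two_le s(s, t) hst
  omega

theorem exists_hom (h : IsEven Γ) {G : Type} [Group G] (g : V → G)
    (hg : ∀ s t, Γ.graph.Adj s t → (g s * g t) ^ half Γ s t = (g t * g s) ^ half Γ s t) :
    ∃ f : Artin Γ →* G, ∀ v, f (gen Γ v) = g v := by
  refine ⟨PresentedGroup.toGroup (f := g) ?_, fun v => PresentedGroup.toGroup.of _⟩
  rintro r ⟨s, t, hst, rfl⟩
  rw [map_mul, map_inv, map_alt, map_alt, FreeGroup.lift_apply_of, FreeGroup.lift_apply_of,
    h.label_eq hst, alt_two_mul, alt_two_mul, hg s t hst, mul_inv_cancel]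

theorem gen_rel (h : IsEven Γ) {s t : V} (hst : Γ.graph.Adj s t) :
    (gen Γ s * gen Γ t) ^ half Γ s t = (gen Γ t * gen Γ s) ^ half Γ s t := by
  have h1 : (PresentedGroup.mk (rels Γ)) (alt (Γ.label s(s, t)) (FreeGroup.of s)
      (FreeGroup.of t) * (alt (Γ.label s(s, t)) (FreeGroup.of t) (FreeGroup.of s))⁻¹) = 1 :=
    PresentedGroup.one_of_mem ⟨s, t, hst, rfl⟩
  rw [map_mul, map_inv, map_alt, map_alt, h.label_eq hst, alt_two_mul, alt_two_mul,
    mul_inv_eq_one] at h1
  exact h1

theorem hom_ext {G : Type} [Group G] {f g : Artin Γ →* G} (h : ∀ v, f (gen Γ v) = g (gen Γ v)) :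
    f = g :=
  PresentedGroup.ext h

end hom

end WGirth
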