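import Pool.Agent.Lib.MP_107652_al.Spec

/-!
# Light triangles are preserved
-/

set_option autoImplicit false

open Finset

namespace WGirth

namespace T3

/-- All two by two minors of the rows `i` and `j` are divisible by `p`. -/
def P {W : Type} (p : ℤ) (x y z : W → ℤ) (i j : W) : Prop :=
  p ∣ x i * y j - x j * y i ∧ p ∣ x i * z j - x j * z i ∧ p ∣ y i * z j - y j * z i

/-- The rows `i` and `j` are parallel. -/
def Par {W : Type} (x y z : W → ℤ) (i j : W) : Prop :=
  x i * y j = x j * y i ∧ x i * z j = x j * z i ∧ y i * z j = y j * z i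

/-- The row `i` is zero modulo two. -/
def Zero {W : Type} (x y z : W → ℤ) (i : W) : Prop := Even (x i) ∧ Even (y i) ∧ Even (z i)

variable {W : Type} {p : ℤ} {x y z : W → ℤ} {i j l : W}

theorem P.symm (h : P p x y z i j) : P p x y z j i := by
  obtain ⟨⟨a, ha⟩, ⟨b, hb⟩, ⟨c, hc⟩⟩ := h
  exact ⟨⟨-a, by linear_combination -ha⟩, ⟨-b, by linear_combination -hb⟩,
    ⟨-c, by linear_combination -hc⟩⟩

theorem P.refl (i : W) : P p x y z i i :=
  ⟨⟨0, by ring⟩, ⟨0, by ring⟩, ⟨0, by ring⟩⟩

theorem Par.toP (h : Par x y z i j) : P p x y z i j := by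
  obtain ⟨a, b, c⟩ := h
  exact ⟨⟨0, by linear_combination a⟩, ⟨0, by linear_combination b⟩, ⟨0, by linear_combination c⟩⟩

theorem Zero.toP (h : Zero x y z i) (j : W) : P 2 x y z i j := by
  obtain ⟨⟨a, ha⟩, ⟨b, hb⟩, ⟨c, hc⟩⟩ := h
  exact ⟨⟨a * y j - x j * b, by rw [ha, hb]; ring⟩, ⟨a * z j - x j * c, by rw [ha, hc]; ring⟩,
    ⟨b * z j - y j * c, by rw [hb, hc]; ring⟩⟩

theorem ne_zero_of_not_even {n : ℤ} (h : ¬ Even n) : n ≠ 0 := by
  rintro rfl
  exact h (by simp)

/-- Two rows parallel to a row which is not zero modulo two are parallel. -/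
theorem Par.trans {r s t : W} (h0 : ¬ Zero x y z r) (h1 : Par x y z r s) (h2 : Par x y z r t) :
    Par x y z s t := by
  obtain ⟨a1, b1, c1⟩ := h1
  obtain ⟨a2, b2, c2⟩ := h2
  have key : x r ≠ 0 ∨ y r ≠ 0 ∨ z r ≠ 0 := by
    by_contra hcon
    push Not at hcon
    obtain ⟨e1, e2, e3⟩ := hcon
    exact h0 ⟨by rw [e1]; simp, by rw [e2]; simp, by rw [e3]; simp⟩
  rcases key with h | h | h
  · refine ⟨?_, ?_, ?_⟩ <;> apply mul_left_cancel₀ h
    · linear_combination x s * a2 - x t * a1
    · linear_combination x s * b2 - x t * b1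
    · have e1 : x r * (x r * (y s * z t)) = x r * (x r * (y t * z s)) := by
        linear_combination x r * y s * b2 + x t * z r * a1 - x r * z s * a2 - x s * z r * a2 +
          (x s * z r) * a2 - x t * z r * a1 + x t * y r * b1 - x t * y r * b1 +
          x t * z r * a1 - x t * y r * b1
      exact mul_left_cancel₀ h e1
  · refine ⟨?_, ?_, ?_⟩ <;> apply mul_left_cancel₀ h
    · linear_combination y s * a2 - y t * a1
    · have e1 : y r * (y r * (x s * z t)) = y r * (y r * (x t * z s)) := by
        linear_combination x s * y r * c2 - y r * x t * c1 - y t * z r * a1 + y s * z r * a2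
      exact mul_left_cancel₀ h e1
    · linear_combination y s * c2 - y t * c1
  · refine ⟨?_, ?_, ?_⟩ <;> apply mul_left_cancel₀ h
    · have e1 : z r * (z r * (x s * y t)) = z r * (z r * (x t * y s)) := by
        linear_combination -(z r * x s * c2) + z r * x t * c1 + z s * y r * b2 - z t * y r * b1
      exact mul_left_cancel₀ h e1
    · linear_combination z s * b2 - z t * b1
    · linear_combination z s * c2 - z t * c1

/-- The determinant is divisible by `p` if two of the rows have minors divisible by `p`. -/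
theorem div_det (h : P p x y z i j ∨ P p x y z j l ∨ P p x y z i l) :
    p ∣ x i * (y j * z l - z j * y l) - y i * (x j * z l - z j * x l) +
      z i * (x j * y l - y j * x l) := by
  rcases h with ⟨⟨a, ha⟩, ⟨b, hb⟩, ⟨c, hc⟩⟩ | ⟨⟨a, ha⟩, ⟨b, hb⟩, ⟨c, hc⟩⟩ | ⟨⟨a, ha⟩, ⟨b, hb⟩, ⟨c, hc⟩⟩
  · exact ⟨z l * a - y l * b + x l * c, by
      linear_combination z l * ha - y l * hb + x l * hc⟩
  · exact ⟨z i * a - y i * b + x i * c, by
      linear_combination z i * ha - y i * hb + x i * hc⟩
  · exact ⟨-(z j * a) + y j * b - x j * c, by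
      linear_combination -(z j) * ha + y j * hb - x j * hc⟩

section main

variable {V W : Type} [Fintype V] [Fintype W] [DecidableEq V] [DecidableEq W]
  {kV : V → V → ℕ} {kW : W → W → ℕ} {M : W → V → ℤ} {N : V → W → ℤ}

/-- Det3 applied to the columns `a, b, c`. -/
theorem fin (h2 : Det3) (hM : MPair kV kW M N) {a b c : V} (hab : a ≠ b) (hbc : b ≠ c)
    (hac : a ≠ c) (p : ℕ) (hp : 2 ≤ p)
    (hP : ∀ u v w : W, P (p : ℤ) (fun t => M t a) (fun t => M t b) (fun t => M t c) u v ∨
      P (p : ℤ) (fun t => M t a) (fun t => M t b) (fun t => M t c) v w ∨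
      P (p : ℤ) (fun t => M t a) (fun t => M t b) (fun t => M t c) u w) : False := by
  refine h2 W (fun t => M t a) (fun t => M t b) (fun t => M t c) (N a) (N b) (N c) p hp
    ?_ ?_ ?_ ?_ ?_ ?_ ?_ ?_ ?_ fun i j l => div_det (hP i j l)
  · rw [hM.nm a a, if_pos rfl]
  · rw [hM.nm a b, if_neg hab]
  · rw [hM.nm a c, if_neg hac]
  · rw [hM.nm b a, if_neg hab.symm]
  · rw [hM.nm b b, if_pos rfl]
  · rw [hM.nm b c, if_neg hbc]
  · rw [hM.nm c a, if_neg hac.symm]
  · rw [hM.nm c b, if_neg hbc.symm]
  · rw [hM.nm c c, if_pos rfl]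

/-- Fact F. -/
theorem fact (h1 : StarB) (hM : MPair kV kW M N) {a b c : V} (hab : a ≠ b) (hbc : b ≠ c)
    (hac : a ≠ c) (kab : kV a b = 1) (kbc : kV b c = 1) (kac : kV a c = 1) {i j l : W}
    (hij : i ≠ j) (hil : i ≠ l) (hjl : j ≠ l) (kij : 2 ≤ kW i j) (kil : 2 ≤ kW i l)
    (h0 : ¬ Zero (fun t => M t a) (fun t => M t b) (fun t => M t c) i) :
    Par (fun t => M t a) (fun t => M t b) (fun t => M t c) i j := by
  have sab := h1 V W kV kW M hM.dirM a b hab kab i j l hij hil hjl kij kil
  have sbc := h1 V W kV kW M hM.dirM b c hbc kbc i j l hij hil hjl kij kil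
  have sac := h1 V W kV kW M hM.dirM a c hac kac i j l hij hil hjl kij kil
  by_cases ha : Even (M i a)
  · by_cases hb : Even (M i b)
    · have hc : ¬ Even (M i c) := fun hc => h0 ⟨ha, hb, hc⟩
      have e1 := (sbc.resolve_left fun h => hc h.2).1
      have e2 := (sac.resolve_left fun h => hc h.2).1
      have hne := ne_zero_of_not_even hc
      refine ⟨?_, e2, e1⟩
      apply mul_left_cancel₀ hne
      show M i c * (M i a * M j b) = M i c * (M j a * M i b)
      linear_combination M i b * e2 - M i a * e1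
    · have e1 := (sab.resolve_left fun h => hb h.2).1
      have e2 := (sbc.resolve_left fun h => hb h.1).1
      have hne := ne_zero_of_not_even hb
      refine ⟨e1, ?_, e2⟩
      apply mul_left_cancel₀ hne
      show M i b * (M i a * M j c) = M i b * (M j a * M i c)
      linear_combination M i a * e2 + M i c * e1
  · have e1 := (sab.resolve_left fun h => ha h.1).1
    have e2 := (sac.resolve_left fun h => ha h.1).1
    have hne := ne_zero_of_not_even ha
    refine ⟨e1, e2, ?_⟩
    apply mul_left_cancel₀ hne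
    show M i a * (M i b * M j c) = M i a * (M j b * M i c)
    linear_combination M i b * e2 - M i c * e1

/-- The last argument: two classes of rows. -/
theorem classes (h2 : Det3) (hM : MPair kV kW M N) {a b c : V} (hab : a ≠ b) (hbc : b ≠ c)
    (hac : a ≠ c) (kab : kV a b = 1) (kbc : kV b c = 1) (kac : kV a c = 1) {i j : W}
    (hij : i ≠ j) (kij : 2 ≤ kW i j)
    (hR : ∀ s t : W, s ≠ i → s ≠ j → t ≠ i → t ≠ j →
      P (kW i j : ℤ) (fun t => M t a) (fun t => M t b) (fun t => M t c) s t) : False := by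
  apply fin h2 hM hab hbc hac (kW i j) kij
  have hIJ : P (kW i j : ℤ) (fun t => M t a) (fun t => M t b) (fun t => M t c) i j :=
    ⟨hM.dirM.heis a b hab kab i j hij, hM.dirM.heis a c hac kac i j hij,
      hM.dirM.heis b c hbc kbc i j hij⟩
  have hC : ∀ s t : W, (s = i ∨ s = j) → (t = i ∨ t = j) →
      P (kW i j : ℤ) (fun t => M t a) (fun t => M t b) (fun t => M t c) s t := by
    rintro s t (rfl | rfl) (rfl | rfl)
    · exact P.refl _
    · exact hIJ
    · exact hIJ.symm
    · exact P.refl _
  have hR' : ∀ s t : W, ¬ (s = i ∨ s = j) → ¬ (t = i ∨ t = j) →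
      P (kW i j : ℤ) (fun t => M t a) (fun t => M t b) (fun t => M t c) s t := by
    intro s t hs ht
    push Not at hs ht
    exact hR s t hs.1 hs.2 ht.1 ht.2
  intro u v w
  by_cases hu : u = i ∨ u = j <;> by_cases hv : v = i ∨ v = j <;> by_cases hw : w = i ∨ w = j
  · exact Or.inl (hC _ _ hu hv)
  · exact Or.inl (hC _ _ hu hv)
  · exact Or.inr (Or.inr (hC _ _ hu hw))
  · exact Or.inr (Or.inl (hR' _ _ hv hw))
  · exact Or.inr (Or.inl (hC _ _ hv hw))
  · exact Or.inr (Or.inr (hR' _ _ hu hw))
  · exact Or.inl (hR' _ _ hu hv)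
  · exact Or.inl (hR' _ _ hu hv)

end main

end T3

open T3 in
theorem t3 (h1 : StarB) (h2 : Det3) (h3 : T3Two) : T3 := by
  intro V W _ _ _ _ kV kW M N hM a b c hab hbc hac kab kbc kac
  by_contra hno
  push Not at hno
  -- heavy pairs
  have heavy : ∀ u v w : W, u ≠ v → v ≠ w → u ≠ w → 2 ≤ kW u v ∨ 2 ≤ kW v w ∨ 2 ≤ kW u w := by
    intro u v w huv hvw huw
    by_contra hcon
    push Not at hcon
    obtain ⟨c1, c2, c3⟩ := hcon
    have p1 := hM.posW u v huv
    have p2 := hM.posW v w hvw
    have p3 := hM.posW u w huw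
    exact hno u v w huv hvw huw (by omega) (by omega) (by omega)
  by_cases hcase : ∀ i j : W, i ≠ j → 2 ≤ kW i j →
      P 2 (fun t => M t a) (fun t => M t b) (fun t => M t c) i j
  · -- Case 1
    apply fin h2 hM hab hbc hac 2 le_rfl
    intro u v w
    by_cases huv : u = v
    · subst huv; exact Or.inl (P.refl _)
    by_cases hvw : v = w
    · subst hvw; exact Or.inr (Or.inl (P.refl _))
    by_cases huw : u = w
    · subst huw; exact Or.inr (Or.inr (P.refl _))
    rcases heavy u v w huv hvw huw with h | h | h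
    · exact Or.inl (hcase u v huv h)
    · exact Or.inr (Or.inl (hcase v w hvw h))
    · exact Or.inr (Or.inr (hcase u w huw h))
  -- Case 2
  push Not at hcase
  obtain ⟨i, j, hij, kij, hnP⟩ := hcase
  have hi0 : ¬ Zero (fun t => M t a) (fun t => M t b) (fun t => M t c) i :=
    fun h => hnP (h.toP j)
  have hj0 : ¬ Zero (fun t => M t a) (fun t => M t b) (fun t => M t c) j :=
    fun h => hnP (h.toP i).symm
  have kji : 2 ≤ kW j i := by rw [hM.symW]; exact kij
  have lighti : ∀ r, r ≠ i → r ≠ j → kW i r = 1 := by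
    intro r hri hrj
    have hpos := hM.posW i r hri.symm
    by_contra hne
    exact hnP (fact h1 hM hab hbc hac kab kbc kac hij hri.symm hrj.symm kij (by omega) hi0).toP
  have lightj : ∀ r, r ≠ i → r ≠ j → kW j r = 1 := by
    intro r hri hrj
    have hpos := hM.posW j r hrj.symm
    by_contra hne
    exact hnP (fact h1 hM hab hbc hac kab kbc kac hij.symm hrj.symm hri.symm kji (by omega)
      hj0).toP.symm
  have heavyR : ∀ r s, r ≠ i → r ≠ j → s ≠ i → s ≠ j → r ≠ s → 2 ≤ kW r s := by
    intro r s hri hrj hsi hsj hrs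
    rcases heavy i r s hri.symm hrs hsi.symm with h | h | h
    · have := lighti r hri hrj; omega
    · exact h
    · have := lighti s hsi hsj; omega
  by_cases hA : ∃ r s t : W, r ≠ i ∧ r ≠ j ∧ s ≠ i ∧ s ≠ j ∧ t ≠ i ∧ t ≠ j ∧ r ≠ s ∧ s ≠ t ∧ r ≠ t
  · -- at least three further vertices
    obtain ⟨r₁, r₂, r₃, h1i, h1j, h2i, h2j, h3i, h3j, h12, h23, h13⟩ := hA
    by_cases hz : ∀ r, r ≠ i → r ≠ j → Zero (fun t => M t a) (fun t => M t b) (fun t => M t c) r
    · apply fin h2 hM hab hbc hac 2 le_rfl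
      intro u v w
      by_cases hu : u = i ∨ u = j
      · by_cases hv : v = i ∨ v = j
        · by_cases hw : w = i ∨ w = j
          · by_cases huv : u = v
            · subst huv; exact Or.inl (P.refl _)
            by_cases hvw : v = w
            · subst hvw; exact Or.inr (Or.inl (P.refl _))
            have huw : u = w := by
              rcases hu with rfl | rfl <;> rcases hv with rfl | rfl <;> rcases hw with rfl | rfl <;>
                first | rfl | exact absurd rfl huv | exact absurd rfl hvw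
            subst huw
            exact Or.inr (Or.inr (P.refl _))
          · push Not at hw
            exact Or.inr (Or.inl ((hz w hw.1 hw.2).toP v).symm)
        · push Not at hv
          exact Or.inl ((hz v hv.1 hv.2).toP u).symm
      · push Not at hu
        exact Or.inl ((hz u hu.1 hu.2).toP v)
    · push Not at hz
      obtain ⟨r, hri, hrj, hr0⟩ := hz
      have hpar : ∀ s, s ≠ i → s ≠ j →
          Par (fun t => M t a) (fun t => M t b) (fun t => M t c) r s := by
        intro s hsi hsj
        by_cases hrs : r = s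
        · subst hrs; exact ⟨rfl, rfl, rfl⟩
        obtain ⟨t, hti, htj, hrt, hst⟩ : ∃ t, t ≠ i ∧ t ≠ j ∧ r ≠ t ∧ s ≠ t := by
          by_cases e1 : r ≠ r₁ ∧ s ≠ r₁
          · exact ⟨r₁, h1i, h1j, e1.1, e1.2⟩
          by_cases e2 : r ≠ r₂ ∧ s ≠ r₂
          · exact ⟨r₂, h2i, h2j, e2.1, e2.2⟩
          refine ⟨r₃, h3i, h3j, ?_, ?_⟩
          · rintro rfl
            apply e1
            refine ⟨h13.symm, ?_⟩
            rintro rfl
            exact e2 ⟨h23.symm, h12⟩
          · rintro rfl
            apply e1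
            refine ⟨?_, h13.symm⟩
            rintro rfl
            exact e2 ⟨h12, h23.symm⟩
        exact fact h1 hM hab hbc hac kab kbc kac hrs hrt hst (heavyR r s hri hrj hsi hsj hrs)
          (heavyR r t hri hrj hti htj hrt) hr0
      exact classes h2 hM hab hbc hac kab kbc kac hij kij fun s t hsi hsj hti htj =>
        (Par.trans hr0 (hpar s hsi hsj) (hpar t hti htj)).toP
  · by_cases hB : ∃ l m : W, l ≠ i ∧ l ≠ j ∧ m ≠ i ∧ m ≠ j ∧ l ≠ m
    · obtain ⟨l, m, hli, hlj, hmi, hmj, hlm⟩ := hB
      have hall : ∀ t, t = i ∨ t = j ∨ t = l ∨ t = m := by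
        intro t
        by_contra hcon
        push Not at hcon
        obtain ⟨e1, e2, e3, e4⟩ := hcon
        exact hA ⟨l, m, t, hli, hlj, hmi, hmj, e1, e2, hlm, e4.symm, e3.symm⟩
      exact h3 V W kV kW M N hM a b c hab hbc hac kab kbc kac i j l m hij hli.symm hmi.symm
        hlj.symm hmj.symm hlm hall kij (heavyR l m hli hlj hmi hmj hlm) (lighti l hli hlj)
        (lighti m hmi hmj) (lightj l hli hlj) (lightj m hmi hmj)
    · refine classes h2 hM hab hbc hac kab kbc kac hij kij fun s t hsi hsj hti htj => ?_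
      have hst : s = t := by
        by_contra hne
        exact hB ⟨s, t, hsi, hsj, hti, htj, hne⟩
      subst hst
      exact P.refl _

end WGirth
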