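import Pool.Agent.Lib.MP_107652_al.Spec

set_option autoImplicit false

open Finset

namespace WGirth

namespace T3Two

/-- A column with product sum one has an odd entry. -/
theorem exists_odd {T : Type} [Fintype T] (f g : T → ℤ) (h : ∑ t, f t * g t = 1) :
    ∃ t, ¬ Even (f t) := by
  by_contra hcon
  push Not at hcon
  have h1 : Even (∑ t, f t * g t) := Finset.even_sum _ (fun t _ => (hcon t).mul_right _)
  rw [h] at h1
  exact absurd h1 (by decide)

/-- the four element case: every element of `W` has a partner, and all the others are light. -/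
theorem partner {W : Type} {kW : W → W → ℕ} (symW : ∀ i j, kW i j = kW j i)
    {i j l m : W} (hall : ∀ t, t = i ∨ t = j ∨ t = l ∨ t = m)
    (h1 : kW i l = 1) (h2 : kW i m = 1) (h3 : kW j l = 1) (h4 : kW j m = 1) (s : W) :
    ∃ s', ∀ t, t ≠ s' → t ≠ s → kW s t = 1 := by
  rcases hall s with rfl | rfl | rfl | rfl
  · refine ⟨j, fun t ht hts => ?_⟩
    rcases hall t with rfl | rfl | rfl | rfl
    · exact absurd rfl hts
    · exact absurd rfl ht
    · exact h1
    · exact h2
  · refine ⟨i, fun t ht hts => ?_⟩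
    rcases hall t with rfl | rfl | rfl | rfl
    · exact absurd rfl ht
    · exact absurd rfl hts
    · exact h3
    · exact h4
  · refine ⟨m, fun t ht hts => ?_⟩
    rcases hall t with rfl | rfl | rfl | rfl
    · rw [symW]; exact h1
    · rw [symW]; exact h3
    · exact absurd rfl hts
    · exact absurd rfl ht
  · refine ⟨l, fun t ht hts => ?_⟩
    rcases hall t with rfl | rfl | rfl | rfl
    · rw [symW]; exact h2
    · rw [symW]; exact h4
    · exact absurd rfl ht
    · exact absurd rfl hts

/-- Case A. -/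
theorem caseA (h1 : StarB) (h2 : Ind3) {V W : Type} [Fintype V] [Fintype W] [DecidableEq V]
    [DecidableEq W] {kV : V → V → ℕ} {kW : W → W → ℕ} {M : W → V → ℤ} {N : V → W → ℤ}
    (hP : MPair kV kW M N) (hpart : ∀ s, ∃ s', ∀ t, t ≠ s' → t ≠ s → kW s t = 1)
    {d b1 b2 : V} (hb : b1 ≠ b2) (hd1 : d ≠ b1) (hd2 : d ≠ b2)
    (hk1 : 2 ≤ kV d b1) (hk2 : 2 ≤ kV d b2) : False := by
  have hdd : ∑ s, N d s * M s d = 1 := by rw [hP.nm, if_pos rfl]
  obtain ⟨s, hs⟩ := exists_odd _ _ hdd
  obtain ⟨s', hs'⟩ := hpart s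
  have key : ∀ t, t ≠ s' → t ≠ s →
      N d s * N b1 t = N b1 s * N d t ∧ N d s * N b2 t = N b2 s * N d t := by
    intro t ht hts
    rcases h1 W V kW kV N hP.dirN s t (Ne.symm hts) (hs' t ht hts) d b1 b2 hd1 hd2 hb hk1 hk2
      with h | h
    · exact absurd h.1 hs
    · exact h
  have hsum : ∀ v w, ∑ t, M t w * N v t = if v = w then 1 else 0 := by
    intro v w
    rw [← hP.nm v w]
    exact Finset.sum_congr rfl (fun t _ => mul_comm _ _)
  refine h2 W (N d) (N b1) (N b2) (fun t => M t b1) (fun t => M t b2) s s' ?_ ?_ ?_ ?_ ?_ ?_ ?_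
    ?_ ?_
  · rw [hsum, if_pos rfl]
  · rw [hsum, if_neg hd1]
  · rw [hsum, if_neg (Ne.symm hb)]
  · rw [hsum, if_pos rfl]
  · rw [hsum, if_neg hd2]
  · rw [hsum, if_neg hb]
  · intro h0
    exact hs (h0 ▸ Even.zero)
  · intro t ht
    by_cases hts : t = s
    · subst hts; ring
    · exact (key t ht hts).1
  · intro t ht
    by_cases hts : t = s
    · subst hts; ring
    · exact (key t ht hts).2

/-- Case B: the difference of two heavy rows. -/
theorem caseB {V : Type} [DecidableEq V] {kV : V → V → ℕ} (symV : ∀ v w, kV v w = kV w v)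
    (posV : ∀ v w, v ≠ w → 1 ≤ kV v w) {d b0 : V}
    (hheavy : ∀ v w, v ≠ w → 2 ≤ kV v w → (v = d ∧ w = b0) ∨ (v = b0 ∧ w = d)) (f : V → ℤ)
    (hf : ∀ v w, v ≠ w → kV v w = 1 → 0 ≤ f v * f w)
    (hex : ∃ v w, v ≠ w ∧ 2 ≤ kV v w ∧ f v = 1 ∧ f w = -1) :
    ∃ e : ℤ, e * e = 1 ∧ ∀ u, f u = e * (if u = d then 1 else 0) - e * (if u = b0 then 1 else 0) := by

  obtain ⟨v, w, hvw, hk, hv, hw⟩ := hex
  have hlight : ∀ u x, u ≠ d → u ≠ b0 → u ≠ x → kV u x = 1 := by
    intro u x hud hub hux
    by_contra hne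
    have h2 : 2 ≤ kV u x := by have := posV u x hux; omega
    rcases hheavy u x hux h2 with h | h
    · exact hud h.1
    · exact hub h.1
  have hzero : ∀ u, u ≠ d → u ≠ b0 → f u = 0 := by
    intro u hud hub
    have huv : u ≠ v := by
      rcases hheavy v w hvw hk with h | h
      · rw [h.1]; exact hud
      · rw [h.1]; exact hub
    have huw : u ≠ w := by
      rcases hheavy v w hvw hk with h | h
      · rw [h.2]; exact hub
      · rw [h.2]; exact hud
    have e1 := hf u v huv (hlight u v hud hub huv)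
    have e2 := hf u w huw (hlight u w hud hub huw)
    rw [hv] at e1
    rw [hw] at e2
    linarith
  rcases hheavy v w hvw hk with ⟨rfl, rfl⟩ | ⟨rfl, rfl⟩
  · refine ⟨1, by ring, fun u => ?_⟩
    by_cases hu1 : u = v
    · subst hu1
      rw [if_pos rfl, if_neg hvw, hv]; ring
    · by_cases hu2 : u = w
      · subst hu2
        rw [if_neg (Ne.symm hvw), if_pos rfl, hw]; ring
      · rw [if_neg hu1, if_neg hu2, hzero u hu1 hu2]; ring
  · refine ⟨-1, by ring, fun u => ?_⟩
    by_cases hu1 : u = v
    · subst hu1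
      rw [if_neg hvw, if_pos rfl, hv]; ring
    · by_cases hu2 : u = w
      · subst hu2
        rw [if_pos rfl, if_neg (Ne.symm hvw), hw]; ring
      · rw [if_neg hu1, if_neg hu2, hzero u hu2 hu1]; ring

end T3Two

theorem t3Two (h1 : StarB) (h2 : Ind3) (h3 : CardEq) : T3Two := by
  intro V W _ _ _ _ kV kW M N hP a b c hab hbc hac kab kbc kac i j l m hij hil him hjl hjm hlm
    hall kij klm kil kim kjl kjm
  have hcard : Fintype.card V = Fintype.card W := h3 V W M N hP.nm hP.mn
  have hW : Fintype.card W = 4 := by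
    have hu : (Finset.univ : Finset W) = {i, j, l, m} := by
      ext t
      simp only [Finset.mem_univ, Finset.mem_insert, Finset.mem_singleton, true_iff]
      exact hall t
    rw [← Finset.card_univ, hu, Finset.card_insert_of_notMem, Finset.card_insert_of_notMem,
      Finset.card_insert_of_notMem, Finset.card_singleton]
    · simpa using hlm
    · simp only [Finset.mem_insert, Finset.mem_singleton, not_or]; exact ⟨hjl, hjm⟩
    · simp only [Finset.mem_insert, Finset.mem_singleton, not_or]; exact ⟨hij, hil, him⟩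
  have h3c : ({a, b, c} : Finset V).card = 3 := by
    rw [Finset.card_insert_of_notMem, Finset.card_insert_of_notMem, Finset.card_singleton]
    · simpa using hbc
    · simp only [Finset.mem_insert, Finset.mem_singleton, not_or]; exact ⟨hab, hac⟩
  obtain ⟨d, hd⟩ : ∃ d, d ∉ ({a, b, c} : Finset V) := by
    by_contra hcon
    push Not at hcon
    have : (Finset.univ : Finset V) ⊆ {a, b, c} := fun x _ => hcon x
    have h4 := Finset.card_le_card this
    rw [Finset.card_univ, h3c, hcard, hW] at h4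
    omega
  have hV : ∀ v, v = d ∨ v = a ∨ v = b ∨ v = c := by
    have hu : (insert d ({a, b, c} : Finset V)) = Finset.univ := by
      apply Finset.eq_univ_of_card
      rw [Finset.card_insert_of_notMem hd, h3c, hcard, hW]
    intro v
    have hv : v ∈ (insert d ({a, b, c} : Finset V)) := hu ▸ Finset.mem_univ v
    simpa using hv
  have hpart := T3Two.partner hP.symW hall kil kim kjl kjm
  by_cases hA : ∃ b1 b2, b1 ≠ b2 ∧ d ≠ b1 ∧ d ≠ b2 ∧ 2 ≤ kV d b1 ∧ 2 ≤ kV d b2
  · obtain ⟨b1, b2, hb, hd1, hd2, hk1, hk2⟩ := hA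
    exact T3Two.caseA h1 h2 hP hpart hb hd1 hd2 hk1 hk2
  · -- Case B
    have huniq : ∀ b1 b2, d ≠ b1 → d ≠ b2 → 2 ≤ kV d b1 → 2 ≤ kV d b2 → b1 = b2 := by
      intro b1 b2 hd1 hd2 hk1 hk2
      by_contra hne
      exact hA ⟨b1, b2, hne, hd1, hd2, hk1, hk2⟩
    obtain ⟨b0, hb0⟩ : ∃ b0, ∀ w, d ≠ w → 2 ≤ kV d w → w = b0 := by
      by_cases hex : ∃ b1, d ≠ b1 ∧ 2 ≤ kV d b1
      · obtain ⟨b1, hd1, hk1⟩ := hex
        exact ⟨b1, fun w hw hk => huniq w b1 hw hd1 hk hk1⟩
      · exact ⟨a, fun w hw hk => absurd ⟨w, hw, hk⟩ hex⟩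
    have hlight : ∀ v w, v ≠ w → v ≠ d → w ≠ d → kV v w = 1 := by
      intro v w hvw hvd hwd
      have kba : kV b a = 1 := by rw [hP.symV]; exact kab
      have kcb : kV c b = 1 := by rw [hP.symV]; exact kbc
      have kca : kV c a = 1 := by rw [hP.symV]; exact kac
      rcases hV v with h | h | h | h
      · exact absurd h hvd
      · rcases hV w with h' | h' | h' | h'
        · exact absurd h' hwd
        · exact absurd (h.trans h'.symm) hvw
        · rw [h, h']; exact kab
        · rw [h, h']; exact kac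
      · rcases hV w with h' | h' | h' | h'
        · exact absurd h' hwd
        · rw [h, h']; exact kba
        · exact absurd (h.trans h'.symm) hvw
        · rw [h, h']; exact kbc
      · rcases hV w with h' | h' | h' | h'
        · exact absurd h' hwd
        · rw [h, h']; exact kca
        · rw [h, h']; exact kcb
        · exact absurd (h.trans h'.symm) hvw
    have hheavy : ∀ v w, v ≠ w → 2 ≤ kV v w → (v = d ∧ w = b0) ∨ (v = b0 ∧ w = d) := by
      intro v w hvw hk
      by_cases hvd : v = d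
      · left
        refine ⟨hvd, hb0 w ?_ ?_⟩
        · rw [← hvd]; exact hvw
        · rw [← hvd]; exact hk
      · by_cases hwd : w = d
        · right
          refine ⟨hb0 v (Ne.symm hvd) ?_, hwd⟩
          rw [hP.symV, ← hwd]; exact hk
        · have := hlight v w hvw hvd hwd
          omega
    obtain ⟨e1, he1, hf1⟩ := T3Two.caseB hP.symV hP.posV hheavy (fun v => M i v - M j v)
      (hP.dirM.star1 i j hij kij).2.1 (hP.dirM.star1 i j hij kij).2.2
    obtain ⟨e2, he2, hf2⟩ := T3Two.caseB hP.symV hP.posV hheavy (fun v => M l v - M m v)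
      (hP.dirM.star1 l m hlm klm).2.1 (hP.dirM.star1 l m hlm klm).2.2
    have hrel : ∀ v, M i v - M j v = e1 * e2 * (M l v - M m v) := by
      intro v
      have g1 := hf1 v
      have g2 := hf2 v

      rw [g1, g2]
      have : e1 * e2 * (e2 * (if v = d then 1 else 0) - e2 * (if v = b0 then 1 else 0)) =
        (e2 * e2) * (e1 * (if v = d then 1 else 0) - e1 * (if v = b0 then 1 else 0)) := by ring
      rw [this, he2, one_mul]
    have s1 := hP.mn i i
    have s2 := hP.mn j i
    have s3 := hP.mn l i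
    have s4 := hP.mn m i
    rw [if_pos rfl] at s1
    rw [if_neg (Ne.symm hij)] at s2
    rw [if_neg (Ne.symm hil)] at s3
    rw [if_neg (Ne.symm him)] at s4
    have hsum : ∑ v, (M i v - M j v) * N v i = e1 * e2 * ∑ v, (M l v - M m v) * N v i := by
      rw [Finset.mul_sum]
      refine Finset.sum_congr rfl (fun v _ => ?_)
      rw [hrel v]; ring
    simp only [sub_mul, Finset.sum_sub_distrib] at hsum
    rw [s1, s2, s3, s4] at hsum
    norm_num at hsum

end WGirth
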