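import Pool.Agent.Lib.MP_107652_al.Spec

/-!
# MP_107652_al: light edges and light paths are preserved
-/

set_option autoImplicit false

open Finset

namespace WGirth

namespace T45

variable {V W : Type} [Fintype V] [Fintype W] [DecidableEq V] [DecidableEq W]
  {kV : V → V → ℕ} {kW : W → W → ℕ} {M : W → V → ℤ} {N : V → W → ℤ}

/-- Two proportional coordinates vanish. -/
lemma zero_of_rel (h : MPair kV kW M N) {a b : V} (hab : a ≠ b) {i : W}
    (hr : ∀ t, M i a * M t b = M t a * M i b) : M i a = 0 ∧ M i b = 0 := by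
  constructor
  · have h1 : ∑ t, N b t * (M i a * M t b) = ∑ t, N b t * (M t a * M i b) :=
      sum_congr rfl fun t _ => by rw [hr t]
    have h2 : ∑ t, N b t * (M i a * M t b) = M i a * ∑ t, N b t * M t b := by
      rw [mul_sum]
      exact sum_congr rfl fun t _ => by ring
    have h3 : ∑ t, N b t * (M t a * M i b) = M i b * ∑ t, N b t * M t a := by
      rw [mul_sum]
      exact sum_congr rfl fun t _ => by ring
    rw [h2, h3, h.nm, h.nm, if_pos rfl, if_neg hab.symm, mul_one, mul_zero] at h1
    exact h1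
  · have h1 : ∑ t, N a t * (M i a * M t b) = ∑ t, N a t * (M t a * M i b) :=
      sum_congr rfl fun t _ => by rw [hr t]
    have h2 : ∑ t, N a t * (M i a * M t b) = M i a * ∑ t, N a t * M t b := by
      rw [mul_sum]
      exact sum_congr rfl fun t _ => by ring
    have h3 : ∑ t, N a t * (M t a * M i b) = M i b * ∑ t, N a t * M t a := by
      rw [mul_sum]
      exact sum_congr rfl fun t _ => by ring
    rw [h2, h3, h.nm, h.nm, if_pos rfl, if_neg hab, mul_one, mul_zero] at h1
    exact h1.symm

/-- Some entry in the column of `b` is odd. -/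
lemma exists_odd (h : MPair kV kW M N) (b : V) : ∃ i, ¬ Even (M i b) := by
  by_contra hcon
  push Not at hcon
  have h1 := h.nm b b
  rw [if_pos rfl] at h1
  have h2 : Even (∑ i, N b i * M i b) := even_sum _ fun i _ => (hcon i).mul_left _
  rw [h1] at h2
  exact absurd h2 (by decide)

lemma exists_third (h3 : 3 ≤ Fintype.card W) (i j : W) : ∃ l, l ≠ i ∧ l ≠ j := by
  obtain ⟨l, -, hl⟩ := exists_mem_notMem_of_card_lt_card (s := {i, j}) (t := (univ : Finset W)) (by
    have := card_le_two (a := i) (b := j)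
    rw [card_univ]
    omega)
  rw [mem_insert, mem_singleton, not_or] at hl
  exact ⟨l, hl.1, hl.2⟩

lemma exists_fourth (h4 : 4 ≤ Fintype.card W) (i j k : W) : ∃ l, l ≠ i ∧ l ≠ j ∧ l ≠ k := by
  obtain ⟨l, -, hl⟩ := exists_mem_notMem_of_card_lt_card (s := {i, j, k}) (t := (univ : Finset W)) (by
    have := card_le_three (a := i) (b := j) (c := k)
    rw [card_univ]
    omega)
  rw [mem_insert, mem_insert, mem_singleton, not_or, not_or] at hl
  exact ⟨l, hl.1, hl.2.1, hl.2.2⟩

/-- `card W ≥ 4`. -/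
lemma big (h1 : StarB) (h2 : Ind3) (h : MPair kV kW M N)
    (hl : ∀ i j l, i ≠ j → i ≠ l → j ≠ l → kW i j = 1 → 2 ≤ kW i l) (h4 : 4 ≤ Fintype.card W)
    {a b c : V} (hab : a ≠ b) (hbc : b ≠ c) (hac : a ≠ c) (kab : kV a b = 1) (kbc : kV b c = 1) :
    False := by
  obtain ⟨i, hi⟩ := exists_odd h b
  obtain ⟨s', hs'⟩ : ∃ s', ∀ t, t ≠ s' → t ≠ i → 2 ≤ kW i t := by
    by_cases hex : ∃ s, s ≠ i ∧ kW i s = 1
    · obtain ⟨s, hs, hks⟩ := hex
      exact ⟨s, fun t ht hti => hl i s t hs.symm hti.symm ht.symm hks⟩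
    · refine ⟨i, fun t _ hti => ?_⟩
      have h5 := h.posW i t hti.symm
      have h6 : kW i t ≠ 1 := fun h6 => hex ⟨t, hti, h6⟩
      omega
  have key : ∀ a', a' ≠ b → kV a' b = 1 → ∀ t, t ≠ s' → M i b * M t a' = M i a' * M t b := by
    intro a' ha' hk t ht
    by_cases hti : t = i
    · rw [hti]; ring
    · obtain ⟨l, hl1, hl2, hl3⟩ := exists_fourth h4 i t s'
      rcases h1 V W kV kW M h.dirM a' b ha' hk i t l (Ne.symm hti) hl1.symm hl2.symm
        (hs' t ht hti) (hs' l hl3 hl1) with h5 | h5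
      · exact absurd h5.2 hi
      · rw [h5.1]; ring
  have kcb : kV c b = 1 := by rw [h.symV]; exact kbc
  refine h2 W (fun t => M t b) (fun t => M t a) (fun t => M t c) (N a) (N c) i s' ?_ ?_ ?_ ?_ ?_ ?_ ?_
    (key a hab kab) (key c hbc.symm kcb)
  · rw [h.nm, if_pos rfl]
  · rw [h.nm, if_neg hab]
  · rw [h.nm, if_neg hac]
  · rw [h.nm, if_pos rfl]
  · rw [h.nm, if_neg hbc.symm]
  · rw [h.nm, if_neg hac.symm]
  · intro h5
    apply hi
    show Even (M i b)
    have h6 : M i b = 0 := h5
    rw [h6]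
    exact Even.zero

/-- Parity of the entries when `W` has three elements. -/
lemma par3 (h1 : StarB) (h : MPair kV kW M N) {i j l : W} (hij : i ≠ j) (hil : i ≠ l) (hjl : j ≠ l)
    (hall : ∀ t, t = i ∨ t = j ∨ t = l) (kij : 2 ≤ kW i j) (kil : 2 ≤ kW i l)
    {a b : V} (hab : a ≠ b) (kab : kV a b = 1) : Even (M i a) ∧ Even (M i b) := by
  rcases h1 V W kV kW M h.dirM a b hab kab i j l hij hil hjl kij kil with h5 | h5
  · exact h5
  · have h6 : ∀ t, M i a * M t b = M t a * M i b := by
      intro t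
      rcases hall t with rfl | rfl | rfl
      · rfl
      · exact h5.1
      · exact h5.2
    obtain ⟨h7, h8⟩ := zero_of_rel h hab h6
    rw [h7, h8]
    exact ⟨Even.zero, Even.zero⟩

end T45

open T45

theorem t5 (h1 : StarB) : T5 := by
  intro V W _ _ _ _ kV kW M N h h3 hheavy a b hab kab
  obtain ⟨i, hi⟩ : ∃ i, ¬ (Even (M i a) ∧ Even (M i b)) := by
    obtain ⟨i, hi⟩ := exists_odd h a
    exact ⟨i, fun h5 => hi h5.1⟩
  have h6 : ∀ t, M i a * M t b = M t a * M i b := by
    intro t
    by_cases hti : t = i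
    · rw [hti]
    · obtain ⟨l, hl1, hl2⟩ := exists_third h3 i t
      rcases h1 V W kV kW M h.dirM a b hab kab i t l (Ne.symm hti) hl1.symm hl2.symm
        (hheavy i t (Ne.symm hti)) (hheavy i l hl1.symm) with h5 | h5
      · exact absurd h5 hi
      · exact h5.1
  obtain ⟨h7, h8⟩ := zero_of_rel h hab h6
  apply hi
  rw [h7, h8]
  exact ⟨Even.zero, Even.zero⟩

theorem t4 (h1 : StarB) (h2 : Ind3) (h3 : CardEq) : T4 := by
  intro V W _ _ _ _ kV kW M N h hl a b c hab hbc hac kab kbc
  have hcard : Fintype.card V = Fintype.card W := h3 V W M N h.nm h.mn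
  by_cases h4 : 4 ≤ Fintype.card W
  · exact big h1 h2 h hl h4 hab hbc hac kab kbc
  · have habc : ({a, b, c} : Finset V).card = 3 := card_eq_three.2 ⟨a, b, c, hab, hac, hbc, rfl⟩
    have hV3 : 3 ≤ Fintype.card V := by
      rw [← habc, ← card_univ]
      exact card_le_card (subset_univ _)
    have hV : Fintype.card V = 3 := by omega
    have hW : Fintype.card W = 3 := by omega
    have hallV : ∀ v : V, v = a ∨ v = b ∨ v = c := by
      intro v
      have h5 : ({a, b, c} : Finset V) = univ := eq_univ_of_card _ (by rw [habc, hV])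
      have h6 := mem_univ v
      rw [← h5] at h6
      simpa using h6
    obtain ⟨w1, w2, w3, h12, h13, h23, hW'⟩ := card_eq_three.1 (by rw [card_univ, hW] :
      (univ : Finset W).card = 3)
    have hallW : ∀ t : W, t = w1 ∨ t = w2 ∨ t = w3 := by
      intro t
      have h6 := mem_univ t
      rw [hW'] at h6
      simpa using h6
    obtain ⟨i, j, l, hij, hil, hjl, hall, kij, kil⟩ : ∃ i j l : W, i ≠ j ∧ i ≠ l ∧ j ≠ l ∧
        (∀ t, t = i ∨ t = j ∨ t = l) ∧ 2 ≤ kW i j ∧ 2 ≤ kW i l := by
      have p12 := h.posW w1 w2 h12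
      have p13 := h.posW w1 w3 h13
      by_cases k12 : kW w1 w2 = 1
      · have k21 : kW w2 w1 = 1 := by rw [h.symW]; exact k12
        refine ⟨w3, w1, w2, h13.symm, h23.symm, h12, ?_, ?_, ?_⟩
        · intro t
          rcases hallW t with h5 | h5 | h5
          · exact Or.inr (Or.inl h5)
          · exact Or.inr (Or.inr h5)
          · exact Or.inl h5
        · rw [h.symW]
          exact hl w1 w2 w3 h12 h13 h23 k12
        · rw [h.symW]
          exact hl w2 w1 w3 h12.symm h23 h13 k21
      · by_cases k13 : kW w1 w3 = 1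
        · have k31 : kW w3 w1 = 1 := by rw [h.symW]; exact k13
          refine ⟨w2, w1, w3, h12.symm, h23, h13, ?_, ?_, ?_⟩
          · intro t
            rcases hallW t with h5 | h5 | h5
            · exact Or.inr (Or.inl h5)
            · exact Or.inl h5
            · exact Or.inr (Or.inr h5)
          · rw [h.symW]
            omega
          · rw [h.symW]
            exact hl w3 w1 w2 h13.symm h23.symm h12 k31
        · exact ⟨w1, w2, w3, h12, h13, h23, hallW, by omega, by omega⟩
    obtain ⟨ea, eb⟩ := par3 h1 h hij hil hjl hall kij kil hab kab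
    obtain ⟨-, ec⟩ := par3 h1 h hij hil hjl hall kij kil hbc kbc
    have h5 := h.mn i i
    rw [if_pos rfl] at h5
    have h6 : Even (∑ v, M i v * N v i) := even_sum _ fun v _ => by
      rcases hallV v with rfl | rfl | rfl
      · exact ea.mul_right _
      · exact eb.mul_right _
      · exact ec.mul_right _
    rw [h5] at h6
    exact absurd h6 (by decide)

end WGirth
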