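import Pool.Agent.Lib.MP_107652_al.Spec

/-!
# MP_107652_al: assembly
-/

set_option autoImplicit false

namespace WGirth

/-- a triangle with all labels equal to 2 -/
def LT {V : Type} (Γ : LGraph V) : Prop := ∃ a b c : V, a ≠ b ∧ b ≠ c ∧ a ≠ c ∧
  Γ.label s(a, b) = 2 ∧ Γ.label s(b, c) = 2 ∧ Γ.label s(a, c) = 2

/-- two edges with label 2 which meet -/
def LP {V : Type} (Γ : LGraph V) : Prop := ∃ a b c : V, a ≠ b ∧ b ≠ c ∧ a ≠ c ∧
  Γ.label s(a, b) = 2 ∧ Γ.label s(b, c) = 2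

/-- an edge with label 2 -/
def LE' {V : Type} (Γ : LGraph V) : Prop := ∃ a b : V, a ≠ b ∧ Γ.label s(a, b) = 2

theorem exists_third {V : Type} [Fintype V] (h : 3 ≤ Fintype.card V) (a b : V) :
    ∃ c, c ≠ a ∧ c ≠ b := by
  classical
  by_contra hcon
  push Not at hcon
  have h1 : (Finset.univ : Finset V) ⊆ {a, b} := by
    intro c _
    rw [Finset.mem_insert, Finset.mem_singleton]
    by_cases hca : c = a
    · exact Or.inl hca
    · exact Or.inr (hcon c hca)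
  have h2 := Finset.card_le_card h1
  rw [Finset.card_univ] at h2
  have h3 : ({a, b} : Finset V).card ≤ 2 := Finset.card_le_two
  omega

open Classical in
theorem wgirth_eq (hlow : GirthLow) (hup : GirthUp) {V : Type} [Fintype V] (Γ : LGraph V)
    (hc : ∀ v w, v ≠ w → Γ.graph.Adj v w) (hV : 3 ≤ Fintype.card V) :
    wgirth Γ = if LT Γ then 3 else if LP Γ then 4 else if LE' Γ then 5 else 6 := by
  obtain ⟨l3, l4, l5, l6⟩ := hlow V Γ hc
  by_cases h1 : LT Γ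
  · rw [if_pos h1]
    obtain ⟨a, b, c, hab, hbc, hac, e1, e2, e3⟩ := h1
    exact le_antisymm ((hup V Γ hc a b c hab hbc hac).1 e1 e2 e3) l3
  · rw [if_neg h1]
    have l4' := l4 (fun a b c hab hbc hac e1 e2 e3 => h1 ⟨a, b, c, hab, hbc, hac, e1, e2, e3⟩)
    by_cases h2 : LP Γ
    · rw [if_pos h2]
      obtain ⟨a, b, c, hab, hbc, hac, e1, e2⟩ := h2
      exact le_antisymm ((hup V Γ hc a b c hab hbc hac).2.1 e1 e2) l4'
    · rw [if_neg h2]
      have l5' := l5 (fun a b c hab hbc hac e1 e2 => h2 ⟨a, b, c, hab, hbc, hac, e1, e2⟩)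
      by_cases h3 : LE' Γ
      · rw [if_pos h3]
        obtain ⟨a, b, hab, e1⟩ := h3
        obtain ⟨c, hca, hcb⟩ := exists_third hV a b
        exact le_antisymm ((hup V Γ hc a b c hab hcb.symm hca.symm).2.2.1 e1) l5'
      · rw [if_neg h3]
        have l6' := l6 (fun a b hab e1 => h3 ⟨a, b, hab, e1⟩)
        obtain ⟨a⟩ : Nonempty V := Fintype.card_pos_iff.1 (by omega)
        obtain ⟨b, hb, _⟩ := exists_third hV a a
        obtain ⟨c, hca, hcb⟩ := exists_third hV a b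
        exact le_antisymm ((hup V Γ hc a b c hb.symm hcb.symm hca.symm).2.2.2) l6'

theorem half_eq_one_iff {V : Type} {Γ : LGraph V} (h : IsEven Γ) {v w : V}
    (hvw : Γ.graph.Adj v w) : half Γ v w = 1 ↔ Γ.label s(v, w) = 2 := by
  have := h.label_eq hvw
  omega

theorem MPair.swap {V W : Type} [Fintype V] [Fintype W] [DecidableEq V] [DecidableEq W]
    {kV : V → V → ℕ} {kW : W → W → ℕ} {M : W → V → ℤ} {N : V → W → ℤ}
    (h : MPair kV kW M N) : MPair kW kV N M where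
  symV := h.symW
  symW := h.symV
  posV := h.posW
  posW := h.posV
  nm := h.mn
  mn := h.nm
  dirM := h.dirN
  dirN := h.dirM

theorem LT_of (hT3 : T3) {V W : Type} [Fintype V] [Fintype W] [DecidableEq V] [DecidableEq W]
    {Γ : LGraph V} {Λ : LGraph W} (hΓ : IsEven Γ) (hΛ : IsEven Λ)
    (hc : ∀ v w, v ≠ w → Γ.graph.Adj v w) (hc' : ∀ v w, v ≠ w → Λ.graph.Adj v w)
    {M : W → V → ℤ} {N : V → W → ℤ} (h : MPair (half Γ) (half Λ) M N) (h1 : LT Γ) : LT Λ := by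
  obtain ⟨a, b, c, hab, hbc, hac, e1, e2, e3⟩ := h1
  obtain ⟨i, j, l, hij, hjl, hil, f1, f2, f3⟩ := hT3 V W _ _ M N h a b c hab hbc hac
    ((half_eq_one_iff hΓ (hc _ _ hab)).2 e1) ((half_eq_one_iff hΓ (hc _ _ hbc)).2 e2)
    ((half_eq_one_iff hΓ (hc _ _ hac)).2 e3)
  exact ⟨i, j, l, hij, hjl, hil, (half_eq_one_iff hΛ (hc' _ _ hij)).1 f1,
    (half_eq_one_iff hΛ (hc' _ _ hjl)).1 f2, (half_eq_one_iff hΛ (hc' _ _ hil)).1 f3⟩

theorem LP_of (hT4 : T4) {V W : Type} [Fintype V] [Fintype W] [DecidableEq V] [DecidableEq W]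
    {Γ : LGraph V} {Λ : LGraph W} (hΓ : IsEven Γ) (hΛ : IsEven Λ)
    (hc : ∀ v w, v ≠ w → Γ.graph.Adj v w) (hc' : ∀ v w, v ≠ w → Λ.graph.Adj v w)
    {M : W → V → ℤ} {N : V → W → ℤ} (h : MPair (half Γ) (half Λ) M N) (h1 : LP Γ) : LP Λ := by
  obtain ⟨a, b, c, hab, hbc, hac, e1, e2⟩ := h1
  by_contra hcon
  refine hT4 V W _ _ M N h ?_ a b c hab hbc hac ((half_eq_one_iff hΓ (hc _ _ hab)).2 e1)
    ((half_eq_one_iff hΓ (hc _ _ hbc)).2 e2)
  intro i j l hij hil hjl f1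
  have h2 := h.posW i l hil
  by_contra hlt
  have f2 : half Λ i l = 1 := by omega
  apply hcon
  refine ⟨j, i, l, hij.symm, hil, hjl, ?_, (half_eq_one_iff hΛ (hc' _ _ hil)).1 f2⟩
  rw [← half_eq_one_iff hΛ (hc' _ _ hij.symm), half_comm]
  exact f1

theorem LE_of (hT5 : T5) {V W : Type} [Fintype V] [Fintype W] [DecidableEq V] [DecidableEq W]
    {Γ : LGraph V} {Λ : LGraph W} (hΓ : IsEven Γ) (hΛ : IsEven Λ)
    (hc : ∀ v w, v ≠ w → Γ.graph.Adj v w) (hc' : ∀ v w, v ≠ w → Λ.graph.Adj v w)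
    {M : W → V → ℤ} {N : V → W → ℤ} (h : MPair (half Γ) (half Λ) M N)
    (hW : 3 ≤ Fintype.card W) (h1 : LE' Γ) : LE' Λ := by
  obtain ⟨a, b, hab, e1⟩ := h1
  by_contra hcon
  refine hT5 V W _ _ M N h hW ?_ a b hab ((half_eq_one_iff hΓ (hc _ _ hab)).2 e1)
  intro i j hij
  have h2 := h.posW i j hij
  by_contra hlt
  have f2 : half Λ i j = 1 := by omega
  exact hcon ⟨i, j, hij, (half_eq_one_iff hΛ (hc' _ _ hij)).1 f2⟩

theorem main_of (hP : PairEx) (hT3 : T3) (hT4 : T4) (hT5 : T5) (hC : CardEq)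
    (hs : GirthSmall) (hlow : GirthLow) (hup : GirthUp)
    {V W : Type} [Fintype V] [Fintype W] (Γ : LGraph V) (Λ : LGraph W)
    (hΓ : IsEven Γ) (hΛ : IsEven Λ) (hc : ∀ v w, v ≠ w → Γ.graph.Adj v w)
    (e : Nonempty (Artin Γ ≃* Artin Λ)) : wgirth Γ = wgirth Λ := by
  classical
  obtain ⟨hc', M, N, h⟩ := hP V W Γ Λ hΓ hΛ hc e
  have hcard : Fintype.card V = Fintype.card W := hC V W M N h.nm h.mn
  by_cases hV : Fintype.card V ≤ 2
  · rw [hs V Γ hV, hs W Λ (by omega)]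
  · rw [wgirth_eq hlow hup Γ hc (by omega), wgirth_eq hlow hup Λ hc' (by omega)]
    have t : LT Γ ↔ LT Λ := ⟨LT_of hT3 hΓ hΛ hc hc' h, LT_of hT3 hΛ hΓ hc' hc h.swap⟩
    have p : LP Γ ↔ LP Λ := ⟨LP_of hT4 hΓ hΛ hc hc' h, LP_of hT4 hΛ hΓ hc' hc h.swap⟩
    have q : LE' Γ ↔ LE' Λ := ⟨LE_of hT5 hΓ hΛ hc hc' h (by omega),
      LE_of hT5 hΛ hΓ hc' hc h.swap (by omega)⟩
    simp only [t, p, q]

end WGirth
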