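import Pool.Agent.Lib.MP_107652_al.Spec

/-!
# Representations of an even Artin group on a complete graph in the affine group (`LemS`)
-/

set_option autoImplicit false

open Finset

namespace WGirth

namespace LemS

/-- if the images of the generators commute then the image is commutative -/
theorem comm_of_gen {V : Type} {Γ : LGraph V} (ρ : Artin Γ →* Aff)
    (h : ∀ v w, ρ (gen Γ v) * ρ (gen Γ w) = ρ (gen Γ w) * ρ (gen Γ v)) (x y : Artin Γ) :
    ρ x * ρ y = ρ y * ρ x := by
  have step : ∀ z : Aff, (∀ v, z * ρ (gen Γ v) = ρ (gen Γ v) * z) → ∀ x, z * ρ x = ρ x * z := by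
    intro z hz x
    have h1 : (MulAut.conj z).toMonoidHom.comp ρ = ρ := by
      apply hom_ext
      intro v
      simp only [MonoidHom.coe_comp, Function.comp_apply, MulEquiv.toMonoidHom_eq_coe,
        MonoidHom.coe_coe, MulAut.conj_apply]
      rw [hz v, mul_assoc, mul_inv_cancel, mul_one]
    have h2 := DFunLike.congr_fun h1 x
    simp only [MonoidHom.coe_comp, Function.comp_apply, MulEquiv.toMonoidHom_eq_coe,
        MonoidHom.coe_coe, MulAut.conj_apply] at h2
    calc z * ρ x = (z * ρ x * z⁻¹) * z := by group
      _ = ρ x * z := by rw [h2]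
  have h1 : ∀ v x, ρ (gen Γ v) * ρ x = ρ x * ρ (gen Γ v) := fun v => step _ (h v)
  exact step (ρ x) (fun v => (h1 v x).symm) y

end LemS

theorem lemS : LemS := by
  intro V _ _ Γ hE hcompl ρ n hn hnc hc
  classical
  set g : V → Aff := fun v => ρ (gen Γ v) with hg
  have hrel : ∀ v w, v ≠ w → (g v * g w) ^ half Γ v w = (g w * g v) ^ half Γ v w := by
    intro v w hvw
    have h1 := congrArg ρ (gen_rel hE (hcompl v w hvw))
    simpa [map_pow, map_mul, hg] using h1
  have hpos : ∀ v w, v ≠ w → 1 ≤ half Γ v w := fun v w hvw => hE.half_pos (hcompl v w hvw)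
  have hz : ∀ m : ℤ, (2 : ℝ) ^ m = 1 → m = 0 := by
    intro m hm
    have h2 : (2 : ℝ) ^ m = 2 ^ (0 : ℤ) := by rw [hm, zpow_zero]
    exact zpow_right_injective₀ (by norm_num) (by norm_num) h2
  have hor : ∀ v w, v ≠ w → g v * g w = g w * g v ∨ n v + n w = 0 := by
    intro v w hvw
    rcases Aff.comm_or_norm (hpos v w hvw) (hrel v w hvw) with h | h
    · exact Or.inl h
    · right
      apply hz
      rw [zpow_add₀ (by norm_num), ← hn v, ← hn w]
      exact h
  have hlight : ∀ v w, v ≠ w → half Γ v w = 1 → g v * g w = g w * g v := by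
    intro v w hvw h1
    have := hrel v w hvw
    rwa [h1, pow_one, pow_one] at this
  have hone : ∀ v, g v = 1 → n v = 0 := by
    intro v hv
    apply hz
    rw [← hn v]
    have : (ρ (gen Γ v)).a = 1 := by
      have := congrArg Aff.a hv
      simpa [hg] using this
    rw [this]; simp
  -- a noncommuting pair
  have hex : ∃ v0 w0, g v0 * g w0 ≠ g w0 * g v0 := by
    by_contra hcon
    push Not at hcon
    obtain ⟨x, y, hxy⟩ := hnc
    exact hxy (LemS.comm_of_gen ρ hcon x y)
  obtain ⟨v0, w0, h00⟩ := hex
  have hne0 : v0 ≠ w0 := fun h => h00 (by rw [h])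
  have hsum0 : n v0 + n w0 = 0 := by
    rcases hor v0 w0 hne0 with h | h
    · exact absurd h h00
    · exact h
  have hhalf0 : 2 ≤ half Γ v0 w0 := by
    have h1 := hpos v0 w0 hne0
    rcases Nat.lt_or_ge (half Γ v0 w0) 2 with h | h
    · exact absurd (hlight v0 w0 hne0 (by omega)) h00
    · exact h
  -- an element which does not commute with `u`
  have hnot : ∀ u, g u ≠ 1 → g u * g v0 ≠ g v0 * g u ∨ g u * g w0 ≠ g w0 * g u := by
    intro u hu
    by_contra hcon
    push Not at hcon
    exact h00 (Aff.trans hu hcon.1.symm hcon.2)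
  have hval : ∀ u, g u ≠ 1 → n u = n v0 ∨ n u = -n v0 := by
    intro u hu
    rcases hnot u hu with h | h
    · have hne : u ≠ v0 := fun e => h (by rw [e])
      rcases hor u v0 hne with h1 | h1
      · exact absurd h1 h
      · right; omega
    · have hne : u ≠ w0 := fun e => h (by rw [e])
      rcases hor u w0 hne with h1 | h1
      · exact absurd h1 h
      · left; omega
  have hall : ∀ u, n u = 0 ∨ n u = n v0 ∨ n u = -n v0 := by
    intro u
    by_cases hu : g u = 1
    · exact Or.inl (hone u hu)
    · exact Or.inr (hval u hu)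
  have hunit : n v0 = 1 ∨ n v0 = -1 := by
    obtain ⟨c, hc⟩ := hc
    have hd : n v0 ∣ 1 := by
      rw [← hc]
      apply Finset.dvd_sum
      intro u _
      apply Dvd.dvd.mul_left
      rcases hall u with h | h | h
      · rw [h]; exact dvd_zero _
      · rw [h]
      · rw [h]; exact (dvd_neg).2 dvd_rfl
    exact Int.isUnit_iff.1 (isUnit_of_dvd_one hd)
  refine ⟨?_, ?_, ?_⟩
  · intro v
    rw [abs_le]
    rcases hall v with h | h | h <;> rcases hunit with h' | h' <;> constructor <;> omega
  · intro v w hvw h1
    by_contra hcon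
    push Not at hcon
    have hv0 : n v ≠ 0 := fun h => by rw [h] at hcon; simp at hcon
    have hw0 : n w ≠ 0 := fun h => by rw [h] at hcon; simp at hcon
    have hgv : g v ≠ 1 := fun h => hv0 (hone v h)
    have hgw : g w ≠ 1 := fun h => hw0 (hone w h)
    have hcomm := hlight v w hvw h1
    -- every `u` which does not commute with `v`
    have key : ∀ u, g v * g u ≠ g u * g v → False := by
      intro u hu
      have hu2 : g w * g u ≠ g u * g w := by
        intro h2
        exact hu (Aff.trans hgw hcomm h2)
      have hne1 : v ≠ u := fun e => hu (by rw [e])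
      have hne2 : w ≠ u := fun e => hu2 (by rw [e])
      rcases hor v u hne1 with h3 | h3
      · exact hu h3
      rcases hor w u hne2 with h4 | h4
      · exact hu2 h4
      have : n v = n w := by omega
      rw [this] at hcon
      nlinarith [mul_self_nonneg (n w)]
    rcases hnot v hgv with h | h
    · exact key v0 h
    · exact key w0 h
  · rcases hunit with h | h
    · exact ⟨v0, w0, hne0, hhalf0, h, by omega⟩
    · refine ⟨w0, v0, hne0.symm, ?_, by omega, h⟩
      rw [half_comm]
      exact hhalf0

end WGirth
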