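import Pool.Agent.Lib.MP_107652_al.Spec

/-!
# From an isomorphism of even Artin groups to a pair of matrices
-/

set_option autoImplicit false

open Finset

namespace WGirth

namespace PairEx

variable {V W : Type} [Fintype V] [Fintype W] [DecidableEq V] [DecidableEq W]

/-- exponent sums -/
structure Ex {V : Type} [Fintype V] [DecidableEq V] (Γ : LGraph V)
    (x : V → (Artin Γ →* Multiplicative ℤ)) : Prop where
  gen : ∀ i j, x i (WGirth.gen Γ j) = if i = j then Multiplicative.ofAdd 1 else 1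
  prod : ∀ (A : Type) [CommGroup A] (f : Artin Γ →* A) (g : Artin Γ),
      f g = ∏ i, f (WGirth.gen Γ i) ^ (Multiplicative.toAdd (x i g))

/-- the matrix of an isomorphism -/
def mat {Γ : LGraph V} {Λ : LGraph W} (y : W → (Artin Λ →* Multiplicative ℤ))
    (e : Artin Γ ≃* Artin Λ) (i : W) (v : V) : ℤ := Multiplicative.toAdd (y i (e (gen Γ v)))

lemma inv_aux {Γ : LGraph V} {Λ : LGraph W} {x : V → (Artin Γ →* Multiplicative ℤ)}
    {y : W → (Artin Λ →* Multiplicative ℤ)} (hx : Ex Γ x) (hy : Ex Λ y)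
    (e : Artin Γ ≃* Artin Λ) (v w : V) :
    ∑ i, mat x e.symm v i * mat y e i w = if v = w then 1 else 0 := by
  have h := hy.prod (Multiplicative ℤ) ((x v).comp e.symm.toMonoidHom) (e (gen Γ w))
  have h1 : ((x v).comp e.symm.toMonoidHom) (e (gen Γ w)) = x v (gen Γ w) := by simp
  rw [h1, hx.gen] at h
  have h2 := congrArg Multiplicative.toAdd h
  rw [toAdd_prod] at h2
  have h3 : Multiplicative.toAdd (if v = w then Multiplicative.ofAdd (1 : ℤ) else 1)
      = if v = w then 1 else 0 := by split_ifs <;> simp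
  rw [h3] at h2
  rw [h2]
  apply Finset.sum_congr rfl
  intro i _
  rw [toAdd_zpow, smul_eq_mul, mul_comm]
  rfl

lemma norm_aux {Λ : LGraph W} {y : W → (Artin Λ →* Multiplicative ℤ)} (hy : Ex Λ y)
    (f : Artin Λ →* Aff) (t : W → ℤ) (ht : ∀ j, ‖((f (gen Λ j)).a : ℂ)‖ = (2 : ℝ) ^ t j)
    (g : Artin Λ) :
    ‖((f g).a : ℂ)‖ = (2 : ℝ) ^ (∑ j, t j * Multiplicative.toAdd (y j g)) := by
  have h := hy.prod ℂˣ (Aff.lin.comp f) g
  have h1 : (f g).a = (Aff.lin.comp f) g := rfl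
  rw [h1, h, Units.coe_prod, norm_prod]
  have h2 : ∀ (s : Finset W) (a : W → ℤ), ∏ j ∈ s, (2 : ℝ) ^ a j = (2 : ℝ) ^ (∑ j ∈ s, a j) := by
    intro s a
    induction s using Finset.induction_on with
    | empty => simp
    | insert j s hj ih =>
      rw [Finset.prod_insert hj, Finset.sum_insert hj, zpow_add₀ (by norm_num), ih]
  rw [← h2]
  apply Finset.prod_congr rfl
  intro j _
  rw [Units.val_zpow_eq_zpow_val, norm_zpow, zpow_mul]
  congr 1
  exact ht j

lemma sumN_aux {Γ : LGraph V} {Λ : LGraph W} {x : V → (Artin Γ →* Multiplicative ℤ)}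
    {y : W → (Artin Λ →* Multiplicative ℤ)} (hx : Ex Γ x) (hy : Ex Λ y)
    (e : Artin Γ ≃* Artin Λ) (i j : W) :
    ∑ v, mat x e.symm v j * mat y e i v = if i = j then 1 else 0 := by
  have h := inv_aux hy hx e.symm i j
  rw [← h]
  apply Finset.sum_congr rfl
  intro v _
  rw [mul_comm]
  rfl

/-- Pulling back a representation and applying `LemS`. -/
lemma pull (h4 : LemS) {Γ : LGraph V} {Λ : LGraph W} {x : V → (Artin Γ →* Multiplicative ℤ)}
    {y : W → (Artin Λ →* Multiplicative ℤ)} (hx : Ex Γ x) (hy : Ex Λ y) (hΓ : IsEven Γ)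
    (hc : ∀ v w, v ≠ w → Γ.graph.Adj v w)
    (e : Artin Γ ≃* Artin Λ) (f : Artin Λ →* Aff) (t : W → ℤ)
    (ht : ∀ j, ‖((f (gen Λ j)).a : ℂ)‖ = (2 : ℝ) ^ t j) (hn : ∃ g h, f g * f h ≠ f h * f g)
    (i : W) (hi : t i = 1) (n : V → ℤ) (hnt : ∀ v, n v = ∑ j, t j * mat y e j v) :
    (∀ v, |n v| ≤ 1) ∧ (∀ v w, v ≠ w → half Γ v w = 1 → 0 ≤ n v * n w) ∧
    ∃ v w, v ≠ w ∧ 2 ≤ half Γ v w ∧ n v = 1 ∧ n w = -1 := by
  apply h4 V Γ hΓ hc (f.comp e.toMonoidHom) n
  · intro v
    have h := norm_aux hy f t ht (e (gen Γ v))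
    rw [hnt]
    exact h
  · obtain ⟨g, h, hgh⟩ := hn
    refine ⟨e.symm g, e.symm h, ?_⟩
    simpa using hgh
  · refine ⟨fun v => mat x e.symm v i, ?_⟩
    have h1 : ∑ v, mat x e.symm v i * n v
        = ∑ j, t j * ∑ v, mat x e.symm v i * mat y e j v := by
      simp only [hnt, Finset.mul_sum]
      rw [Finset.sum_comm]
      apply Finset.sum_congr rfl
      intro j _
      apply Finset.sum_congr rfl
      intro v _
      ring
    rw [h1]
    simp only [sumN_aux hx hy e]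
    simp [hi]

lemma star (h2 : StarRep) (h4 : LemS) {Γ : LGraph V} {Λ : LGraph W}
    {x : V → (Artin Γ →* Multiplicative ℤ)}
    {y : W → (Artin Λ →* Multiplicative ℤ)} (hx : Ex Γ x) (hy : Ex Λ y) (hΓ : IsEven Γ)
    (hΛ : IsEven Λ) (hc : ∀ v w, v ≠ w → Γ.graph.Adj v w)
    (hcΛ : ∀ i j, i ≠ j → Λ.graph.Adj i j)
    (e : Artin Γ ≃* Artin Λ) (i : W) (B : Finset W) (hB : B.Nonempty) (hi : i ∉ B)
    (hb : ∀ b ∈ B, 2 ≤ half Λ i b) (n : V → ℤ)
    (hn : ∀ v, n v = mat y e i v - ∑ b ∈ B, mat y e b v) :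
    (∀ v, |n v| ≤ 1) ∧ (∀ v w, v ≠ w → half Γ v w = 1 → 0 ≤ n v * n w) ∧
    ∃ v w, v ≠ w ∧ 2 ≤ half Γ v w ∧ n v = 1 ∧ n w = -1 := by
  obtain ⟨ρ, hρ, hnc⟩ := h2 W Λ hΛ i B hB hi (fun b hbB => ⟨hcΛ i b (by
    rintro rfl; exact hi hbB), hb b hbB⟩)
  apply pull h4 hx hy hΓ hc e ρ (fun j => if j = i then 1 else if j ∈ B then -1 else 0) ?_ hnc i
    (by simp) n ?_
  · intro j
    rw [hρ]
    split_ifs <;> simp
  · intro v
    have h1 : ∀ j, (if j = i then 1 else if j ∈ B then -1 else 0) * mat y e j v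
        = (if j = i then mat y e j v else 0) - (if j ∈ B then mat y e j v else 0) := by
      intro j
      by_cases hji : j = i
      · subst hji
        simp [hi]
      · by_cases hjB : j ∈ B <;> simp [hji, hjB]
    rw [hn, Finset.sum_congr rfl (fun j _ => h1 j), Finset.sum_sub_distrib]
    congr 1
    · simp
    · simp [Finset.sum_ite_mem]

lemma complete (h3 : FreeRep) (h4 : LemS) {Γ : LGraph V} {Λ : LGraph W}
    {x : V → (Artin Γ →* Multiplicative ℤ)}
    {y : W → (Artin Λ →* Multiplicative ℤ)} (hx : Ex Γ x) (hy : Ex Λ y) (hΓ : IsEven Γ)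
    (hΛ : IsEven Λ) (hc : ∀ v w, v ≠ w → Γ.graph.Adj v w)
    (e : Artin Γ ≃* Artin Λ) (i j : W) (hij : i ≠ j) : Λ.graph.Adj i j := by
  by_contra hadj
  have key : ∀ m : ℕ, 1 ≤ m → ∀ v, |mat y e i v + m * mat y e j v| ≤ 1 := by
    intro m hm
    obtain ⟨ρ, hρ, hnc⟩ := h3 W Λ hΛ i j hij hadj m hm
    refine (pull h4 hx hy hΓ hc e ρ (fun l => if l = i then 1 else if l = j then m else 0) ?_ hnc i
      (by simp) (fun v => mat y e i v + m * mat y e j v) ?_).1
    · intro l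
      rw [hρ]
      split_ifs <;> simp
    · intro v
      have h1 : ∀ l, (if l = i then 1 else if l = j then (m : ℤ) else 0) * mat y e l v
          = (if l = i then mat y e l v else 0) + (if l = j then m * mat y e l v else 0) := by
        intro l
        by_cases hli : l = i
        · subst hli
          simp [hij]
        · by_cases hlj : l = j <;> simp [hli, hlj, Ne.symm hij]
      rw [Finset.sum_congr rfl (fun l _ => h1 l), Finset.sum_add_distrib]
      simp
  have hz : ∀ v, mat y e j v = 0 := by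
    intro v
    have k1 := abs_le.1 (key 1 le_rfl v)
    have k4 := abs_le.1 (key 4 (by norm_num) v)
    push_cast at k1 k4
    omega
  have h := sumN_aux hx hy e j j
  simp [hz] at h

lemma dir (h2 : StarRep) (h4 : LemS) (h5 : HeisDiv) {Γ : LGraph V} {Λ : LGraph W}
    {x : V → (Artin Γ →* Multiplicative ℤ)}
    {y : W → (Artin Λ →* Multiplicative ℤ)} (hx : Ex Γ x) (hy : Ex Λ y) (hΓ : IsEven Γ)
    (hΛ : IsEven Λ) (hc : ∀ v w, v ≠ w → Γ.graph.Adj v w)
    (hcΛ : ∀ i j, i ≠ j → Λ.graph.Adj i j)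
    (e : Artin Γ ≃* Artin Λ) : Dir (half Γ) (half Λ) (mat y e) := by
  constructor
  · intro a b hab hk i j hij
    have hcomm : e (gen Γ a) * e (gen Γ b) = e (gen Γ b) * e (gen Γ a) := by
      have h := gen_rel hΓ (hc a b hab)
      rw [hk, pow_one, pow_one] at h
      rw [← map_mul, h, map_mul]
    exact h5 W Λ hΛ y hy.gen i j (hcΛ i j hij) _ _ hcomm
  · intro i j hij hk
    have h := star h2 h4 hx hy hΓ hΛ hc hcΛ e i {j} (by simp) (by simpa using hij)
      (by simpa using hk) (fun v => mat y e i v - mat y e j v) (by simp)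
    exact h
  · intro i j l hij hil hjl hk hk'
    have h := star h2 h4 hx hy hΓ hΛ hc hcΛ e i {j, l} (by simp) (by simp [hij, hil])
      (by
        intro b hb
        simp only [Finset.mem_insert, Finset.mem_singleton] at hb
        rcases hb with rfl | rfl
        · exact hk
        · exact hk')
      (fun v => mat y e i v - mat y e j v - mat y e l v) (by
        intro v
        rw [Finset.sum_pair hjl]
        ring)
    exact ⟨h.1, h.2.1⟩

end PairEx

theorem pairEx (h1 : ExpHom) (h2 : StarRep) (h3 : FreeRep) (h4 : LemS) (h5 : HeisDiv) :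
    PairEx := by
  intro V W _ _ _ _ Γ Λ hΓ hΛ hc he
  obtain ⟨e⟩ := he
  obtain ⟨x, hx1, hx2⟩ := h1 V Γ hΓ
  obtain ⟨y, hy1, hy2⟩ := h1 W Λ hΛ
  have hx : PairEx.Ex Γ x := ⟨hx1, hx2⟩
  have hy : PairEx.Ex Λ y := ⟨hy1, hy2⟩
  have hcΛ : ∀ i j, i ≠ j → Λ.graph.Adj i j := fun i j hij =>
    PairEx.complete h3 h4 hx hy hΓ hΛ hc e i j hij
  refine ⟨hcΛ, PairEx.mat y e, PairEx.mat x e.symm, ?_⟩
  exact
    { symV := half_comm Γ
      symW := half_comm Λ
      posV := fun v w hvw => hΓ.half_pos (hc v w hvw)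
      posW := fun i j hij => hΛ.half_pos (hcΛ i j hij)
      nm := fun v w => PairEx.inv_aux hx hy e v w
      mn := fun i j => by
        have h := PairEx.sumN_aux hx hy e i j
        rw [← h]
        exact Finset.sum_congr rfl fun v _ => mul_comm _ _
      dirM := PairEx.dir h2 h4 h5 hx hy hΓ hΛ hc hcΛ e
      dirN := PairEx.dir h2 h4 h5 hy hx hΛ hΓ hcΛ hc e.symm }

end WGirth
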