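import Pool.Agent.Lib.MP_107652_al.Aff

/-!
# MP_107652_al: weighted girth of even Artin groups on complete graphs, statements with proofs

`half Γ v w` is half of the label of the edge `vw` (all labels are even). A pair `v ≠ w` is light if
`half = 1` (label 2) and heavy if `half ≥ 2`.
-/

set_option autoImplicit false

open Finset

namespace WGirth

/-- `M` comes from a homomorphism from the Artin group on `V` to the one on `W`. -/
structure Dir {V W : Type} (kV : V → V → ℕ) (kW : W → W → ℕ) (M : W → V → ℤ) : Prop where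
  heis : ∀ a b : V, a ≠ b → kV a b = 1 → ∀ i j : W, i ≠ j →
    (kW i j : ℤ) ∣ M i a * M j b - M j a * M i b
  star1 : ∀ i j : W, i ≠ j → 2 ≤ kW i j →
    (∀ v, |M i v - M j v| ≤ 1) ∧
    (∀ v w, v ≠ w → kV v w = 1 → 0 ≤ (M i v - M j v) * (M i w - M j w)) ∧
    ∃ v w, v ≠ w ∧ 2 ≤ kV v w ∧ M i v - M j v = 1 ∧ M i w - M j w = -1
  star2 : ∀ i j l : W, i ≠ j → i ≠ l → j ≠ l → 2 ≤ kW i j → 2 ≤ kW i l →
    (∀ v, |M i v - M j v - M l v| ≤ 1) ∧
    (∀ v w, v ≠ w → kV v w = 1 →
      0 ≤ (M i v - M j v - M l v) * (M i w - M j w - M l w))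

/-- The pair of matrices coming from an isomorphism and its inverse. -/
structure MPair {V W : Type} [Fintype V] [Fintype W] [DecidableEq V] [DecidableEq W]
    (kV : V → V → ℕ) (kW : W → W → ℕ) (M : W → V → ℤ) (N : V → W → ℤ) : Prop where
  symV : ∀ v w, kV v w = kV w v
  symW : ∀ i j, kW i j = kW j i
  posV : ∀ v w, v ≠ w → 1 ≤ kV v w
  posW : ∀ i j, i ≠ j → 1 ≤ kW i j
  nm : ∀ v w, ∑ i, N v i * M i w = if v = w then 1 else 0
  mn : ∀ i j, ∑ v, M i v * N v j = if i = j then 1 else 0
  dirM : Dir kV kW M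
  dirN : Dir kW kV N

/-! ## Group part -/

/-- **ExpHom.** Exponent sums. Proof. `exists_hom` with target `Multiplicative ℤ` (commutative). The
second part: both sides are homomorphisms in `g` which agree on the generators (`hom_ext`;
`g ↦ ∏ i, f (gen Γ i) ^ (x i g).toAdd` is a homomorphism because `A` is commutative; on `gen Γ j` all
factors but one are `1`). -/
def ExpHom : Prop := ∀ (V : Type) [Fintype V] [DecidableEq V] (Γ : LGraph V), IsEven Γ →
  ∃ x : V → (Artin Γ →* Multiplicative ℤ),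
    (∀ i j, x i (gen Γ j) = if i = j then Multiplicative.ofAdd 1 else 1) ∧
    ∀ (A : Type) [CommGroup A] (f : Artin Γ →* A) (g : Artin Γ),
      f g = ∏ i, f (gen Γ i) ^ (Multiplicative.toAdd (x i g))

/-- **StarRep.** Proof. `exists_hom` with `gen i ↦ (2, 0)`, `gen b ↦ (ζ_b/2, 1 - ζ_b/2)` for `b ∈ B`
(it fixes the point `1`), where `ζ_b = exp(2πi/k_b)`, `k_b = half Λ i b ≥ 2`, so `ζ_b ≠ 1`, `ζ_b^{k_b} = 1`,
`|ζ_b| = 1`; all other generators `↦ 1`. Relations: pairs with one trivial image and pairs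
`b, b' ∈ B` commute (`Aff.commute_iff`), then both products are equal; for `(i, b)` both products have
linear part `ζ_b`, so both `k_b`-th powers are `1` (`Aff.pow_eq_one`; `half_comm` for `(b, i)`).
`(2,0)` and `(ζ_b/2, 1 - ζ_b/2)` do not commute: `(1-2)(1-ζ_b/2) ≠ 0` (`Aff.commute_iff`). -/
def StarRep : Prop := ∀ (W : Type) [Fintype W] [DecidableEq W] (Λ : LGraph W), IsEven Λ →
  ∀ (i : W) (B : Finset W), B.Nonempty → i ∉ B →
    (∀ b ∈ B, Λ.graph.Adj i b ∧ 2 ≤ half Λ i b) →
    ∃ ρ : Artin Λ →* Aff,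
      (∀ j, ‖((ρ (gen Λ j)).a : ℂ)‖ = if j = i then 2 else if j ∈ B then 1 / 2 else 1) ∧
      ∃ g h, ρ g * ρ h ≠ ρ h * ρ g

/-- **FreeRep.** Proof. `exists_hom` with `gen i ↦ (2, 0)`, `gen j ↦ (2^m, 1 - 2^m)`, all other
generators `↦ 1`; there is no relation between `i` and `j`. -/
def FreeRep : Prop := ∀ (W : Type) [Fintype W] [DecidableEq W] (Λ : LGraph W), IsEven Λ →
  ∀ (i j : W), i ≠ j → ¬ Λ.graph.Adj i j → ∀ m : ℕ, 1 ≤ m →
    ∃ ρ : Artin Λ →* Aff,
      (∀ l, ‖((ρ (gen Λ l)).a : ℂ)‖ = if l = i then 2 else if l = j then 2 ^ m else 1) ∧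
      ∃ g h, ρ g * ρ h ≠ ρ h * ρ g

/-- **LemS.** Proof. Let `g v = ρ (gen Γ v)`. For `v ≠ w`: `(g v * g w)^k = (g w * g v)^k`,
`k = half Γ v w ≥ 1` (`gen_rel`), so they commute or `n v + n w = 0` (`Aff.comm_or_norm`,
`2^(n v) 2^(n w) = 1`); if `k = 1` they commute. If `g v = 1` then `n v = 0`. The `g v` do not all
commute (otherwise the image of `ρ`, generated by them, is abelian: e.g. `hom_ext` or
`Subgroup.closure` induction: the generators generate `Artin Γ`), say `v0, w0` do not commute. So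
`g v0, g w0 ≠ 1`, `n w0 = -n v0`, and `half Γ v0 w0 ≥ 2`. Let `c = n v0`. For any `u` with `g u ≠ 1`,
`g u` does not commute with both `g v0` and `g w0` (`Aff.trans`), so `n u = ±c`. So all `n u ∈ {0, c, -c}`,
and `c ∣ ∑ c_v n_v = 1` gives `c = ±1`. Light pair `v, w` with `n v * n w < 0`: then `n v = -n w ≠ 0`,
both are nontrivial and commute; one of `v0, w0`, call it `u`, does not commute with `v` (`Aff.trans`), hence it
does not commute with `w` either (`Aff.trans`), so `u ≠ v, w` and `n u = -n v`, `n u = -n w = n v`: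
contradiction. The last part: `v0, w0` or `w0, v0`. -/
def LemS : Prop := ∀ (V : Type) [Fintype V] [DecidableEq V] (Γ : LGraph V), IsEven Γ →
  (∀ v w, v ≠ w → Γ.graph.Adj v w) →
  ∀ (ρ : Artin Γ →* Aff) (n : V → ℤ), (∀ v, ‖((ρ (gen Γ v)).a : ℂ)‖ = (2 : ℝ) ^ n v) →
    (∃ g h, ρ g * ρ h ≠ ρ h * ρ g) → (∃ c : V → ℤ, ∑ v, c v * n v = 1) →
    (∀ v, |n v| ≤ 1) ∧ (∀ v w, v ≠ w → half Γ v w = 1 → 0 ≤ n v * n w) ∧
    ∃ v w, v ≠ w ∧ 2 ≤ half Γ v w ∧ n v = 1 ∧ n w = -1

/-- **HeisDiv.** Proof. Let `k = half Λ i j` and let `H` be the Heisenberg group of triples `(p, q, r)`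
over `ZMod k` with `(p,q,r)(p',q',r') = (p+p', q+q', r+r'+p q')` (define a structure with
`Group.ofLeftAxioms`). `exists_hom` with `gen i ↦ (1,0,0)`, `gen j ↦ (0,1,0)`, other generators `↦ 1`:
`(XY)^k = (YX)^k` because `XY = YX Z` with `Z = (0,0,1)` central and `Z^k = 1`. The first two
coordinates of the image of `g` are the residues of the exponent sums (homomorphisms which agree on
the generators). If `g h = h g` then comparing the third coordinates gives `p_g q_h = p_h q_g` in
`ZMod k`, which is the claim (`ZMod.intCast_zmod_eq_zero_iff_dvd` or `ZMod.intCast_eq_intCast_iff_dvd_sub`). -/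
def HeisDiv : Prop := ∀ (W : Type) [Fintype W] [DecidableEq W] (Λ : LGraph W), IsEven Λ →
  ∀ x : W → (Artin Λ →* Multiplicative ℤ),
    (∀ i j, x i (gen Λ j) = if i = j then Multiplicative.ofAdd 1 else 1) →
    ∀ i j : W, Λ.graph.Adj i j → ∀ g h : Artin Λ, g * h = h * g →
      (half Λ i j : ℤ) ∣ Multiplicative.toAdd (x i g) * Multiplicative.toAdd (x j h) -
        Multiplicative.toAdd (x j g) * Multiplicative.toAdd (x i h)

/-- **PairEx.** Proof. Let `x`, `x'` be the exponent sums of ExpHom for `Γ`, `Λ`,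
`M i v = toAdd (x' i (e (gen v)))`, `N v i = toAdd (x v (e.symm (gen i)))`. `nm`: ExpHom for
`f = (x v) ∘ e.symm` and `g = e (gen w)`. `heis`: HeisDiv (`gen a, gen b` commute by `gen_rel`, half = 1).
Stars: pull back StarRep (`B = {j}` or `{j, l}`) along `e`; ExpHom for `f g = ofAdd (log ‖(ρ g).a‖)` shows
`‖(ρ (e (gen v))).a‖ = 2^(M i v - ∑ b ∈ B, M b v)`; LemS with `c v = N v i` (`i ∉ B`). Nonadjacent
`i ≠ j` of `Λ`: FreeRep and LemS give `|M i v + m M j v| ≤ 1` for all `m ≥ 1`, so `M j v = 0` for all `v`: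
contradiction to `mn`. So `Λ` is complete, and the same arguments apply to `e.symm`. -/
def PairEx : Prop := ∀ (V W : Type) [Fintype V] [Fintype W] [DecidableEq V] [DecidableEq W]
  (Γ : LGraph V) (Λ : LGraph W), IsEven Γ → IsEven Λ → (∀ v w, v ≠ w → Γ.graph.Adj v w) →
  Nonempty (Artin Γ ≃* Artin Λ) →
  (∀ i j, i ≠ j → Λ.graph.Adj i j) ∧ ∃ M N, MPair (half Γ) (half Λ) M N

/-! ## Matrix part -/

/-- **LemB.** Proof. Put `u = (xi-xj, yi-yj)`, `v = (xi-xl, yi-yl)`, `w = (xi-xj-xl, yi-yj-yl)`; each is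
one of the seven vectors `±(1,0), ±(0,1), ±(1,1), 0`; `(xl,yl) = u - w`, `(xj,yj) = v - w`,
`(xi,yi) = u + v - w`. The claim is a finite check of `343` cases (`decide` over explicit lists, or
`interval_cases`/`rcases` and `omega`). Checked by computer. -/
def LemB : Prop := ∀ xi yi xj yj xl yl : ℤ,
  |xi - xj| ≤ 1 → |yi - yj| ≤ 1 → 0 ≤ (xi - xj) * (yi - yj) →
  |xi - xl| ≤ 1 → |yi - yl| ≤ 1 → 0 ≤ (xi - xl) * (yi - yl) →
  |xi - xj - xl| ≤ 1 → |yi - yj - yl| ≤ 1 → 0 ≤ (xi - xj - xl) * (yi - yj - yl) →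
  |xi * yj - xj * yi| ≠ 1 → |xi * yl - xl * yi| ≠ 1 →
  (Even xi ∧ Even yi) ∨ (xi * yj = xj * yi ∧ xi * yl = xl * yi)

/-- **StarB.** Proof. LemB; the determinants are divisible by `kW i j ≥ 2` and `kW i l ≥ 2`, so they
are not `±1`. -/
def StarB : Prop := ∀ (V W : Type) (kV : V → V → ℕ) (kW : W → W → ℕ) (M : W → V → ℤ),
  Dir kV kW M → ∀ a b : V, a ≠ b → kV a b = 1 → ∀ i j l : W, i ≠ j → i ≠ l → j ≠ l →
  2 ≤ kW i j → 2 ≤ kW i l →
  (Even (M i a) ∧ Even (M i b)) ∨
    (M i a * M j b = M j a * M i b ∧ M i a * M l b = M l a * M i b)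

/-- **Ind3.** Three independent vectors `P, Q, R` cannot have `P s ≠ 0` and `Q`, `R` congruent to
multiples of `P` outside one index. Proof. `u t = P s * Q t - Q s * P t` and `v t = P s * R t - R s * P t`
vanish for `t ≠ s'`, so `v s' * u t = u s' * v t` for all `t`. Multiply by `α t` and sum:
`v s' * P s = 0` (`∑ α Q = 1`, `∑ α P = ∑ α R = 0`), so `v s' = 0` and `v = 0`; multiply by `β` and sum:
`P s = 0`, a contradiction. -/
def Ind3 : Prop := ∀ (T : Type) [Fintype T] [DecidableEq T] (P Q R α β : T → ℤ) (s s' : T),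
  ∑ t, α t * Q t = 1 → ∑ t, α t * P t = 0 → ∑ t, α t * R t = 0 →
  ∑ t, β t * R t = 1 → ∑ t, β t * P t = 0 → ∑ t, β t * Q t = 0 → P s ≠ 0 →
  (∀ t, t ≠ s' → P s * Q t = Q s * P t) → (∀ t, t ≠ s' → P s * R t = R s * P t) → False

/-- **Det3.** Proof. `D i j l` is the determinant with rows `X i, X j, X l`, `X i = (x i, y i, z i)`. By
multilinearity `∑ i j l, α i * β j * γ l * D i j l` is the determinant of the `3 × 3` matrix with entries
`∑ α x, ∑ α y, ...`, which is the identity matrix, so it is `1`, and it is divisible by `p`. -/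
def Det3 : Prop := ∀ (T : Type) [Fintype T] (x y z α β γ : T → ℤ) (p : ℕ), 2 ≤ p →
  ∑ t, α t * x t = 1 → ∑ t, α t * y t = 0 → ∑ t, α t * z t = 0 →
  ∑ t, β t * x t = 0 → ∑ t, β t * y t = 1 → ∑ t, β t * z t = 0 →
  ∑ t, γ t * x t = 0 → ∑ t, γ t * y t = 0 → ∑ t, γ t * z t = 1 →
  (∀ i j l : T, (p : ℤ) ∣ x i * (y j * z l - z j * y l) - y i * (x j * z l - z j * x l) +
    z i * (x j * y l - y j * x l)) → False

/-- **T5.** Proof. Let `x = M · a`, `y = M · b`. If `M i a`, `M i b` are even for all `i` then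
`1 = ∑ N a i * M i a` is even. So there is `i` with `M i a` or `M i b` odd. For every `j ≠ i` there is a third
`l`, and StarB gives `M i a * M j b = M j a * M i b`. So `M i a * M j b = M j a * M i b` for all `j`. Multiply by
`N b j` and sum over `j`: `M i a = 0`; by `N a j`: `M i b = 0`. Contradiction. -/
def T5 : Prop := ∀ (V W : Type) [Fintype V] [Fintype W] [DecidableEq V] [DecidableEq W]
  (kV : V → V → ℕ) (kW : W → W → ℕ) (M : W → V → ℤ) (N : V → W → ℤ), MPair kV kW M N →
  3 ≤ Fintype.card W → (∀ i j, i ≠ j → 2 ≤ kW i j) → ∀ a b : V, a ≠ b → kV a b = 1 → False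

/-- **CardEq.** Proof. `M`, `N` are inverse matrices (`Matrix.square_of_invertible`, or ranks /
`LinearEquiv.finrank_eq` of `ℤ^V ≃ ℤ^W`). -/
def CardEq : Prop := ∀ (V W : Type) [Fintype V] [Fintype W] [DecidableEq V] [DecidableEq W]
  (M : W → V → ℤ) (N : V → W → ℤ), (∀ v w, ∑ i, N v i * M i w = if v = w then 1 else 0) →
  (∀ i j, ∑ v, M i v * N v j = if i = j then 1 else 0) → Fintype.card V = Fintype.card W

/-- **T4.** `a - b - c` is a light path in `V`, and no two light edges of `W` meet.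
Proof. `card V = card W ≥ 3` (CardEq). First case `card W ≥ 4`: every `i ∈ W` is light to at most one vertex,
so for `j ≠ i` heavy to `i` there is another `l` heavy to `i`. There is `i` with `M i b` odd (`∑ N b i * M i b = 1`).
Let `s'` be the light partner of `i` (or `i` itself if there is none). For `t ≠ s'`, `t ≠ i`, StarB with centre
`i` and leaves `t`, `l` for the light pairs `a, b` and `c, b` gives `M i b * M t a = M i a * M t b` and
`M i b * M t c = M i c * M t b`; for `t = i` this is trivial. Ind3 with `P = M · b`, `Q = M · a`, `R = M · c`,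
`α = N a`, `β = N c`, `s = i`: contradiction.
Second case `card W = 3`: `V = {a, b, c}` and some `i ∈ W` is heavy to the other two, `j` and `l`. If `M i b` is
odd, StarB for the light pair `a, b` gives `M i a * M t b = M t a * M i b` for all `t` (all of `i, j, l`); multiply by
`N a t` and sum: `M i b = 0`, contradiction. So `M i b` is even. If `M i a` is odd, the same StarB relation and the sum with
`N b t` give `M i a = 0`, contradiction. So `M i a` is even, and `M i c` is even by symmetry (pair `c, b`). So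
`1 = ∑ v, M i v * N v i` is even: contradiction. -/
def T4 : Prop := ∀ (V W : Type) [Fintype V] [Fintype W] [DecidableEq V] [DecidableEq W]
  (kV : V → V → ℕ) (kW : W → W → ℕ) (M : W → V → ℤ) (N : V → W → ℤ), MPair kV kW M N →
  (∀ i j l, i ≠ j → i ≠ l → j ≠ l → kW i j = 1 → 2 ≤ kW i l) →
  ∀ a b c : V, a ≠ b → b ≠ c → a ≠ c → kV a b = 1 → kV b c = 1 → False

/-- **T3Two.** `a, b, c` is a light triangle of `V`; `W = {i, j, l, m}` with heavy edges exactly `ij`, `lm`.
Proof. `card V = 4` (CardEq), let `d` be the fourth vertex. Every `s ∈ W` has exactly one heavy partner `s'`.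
Case A: `d` is heavy to two of `a, b, c`, say `b1 ≠ b2`. There is `s` with `N d s` odd
(`∑ N d s * M s d = 1`). For `t ≠ s, s'` the pair `s, t` of `W` is light, and StarB for `N` (`dirN`; centre `d`,
leaves `b1, b2`) gives `N d s * N b1 t = N b1 s * N d t` and `N d s * N b2 t = N b2 s * N d t`; for
`t = s` this is trivial. Ind3 with `P = N d`, `Q = N b1`, `R = N b2`, `α t = M t b1`, `β t = M t b2`:
contradiction.
Case B: at most one of `a, b, c` is heavy to `d`. Then `V` has at most one heavy pair `{d, b0}`. `star1` of `dirM`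
for `i, j`: there is a heavy pair `v, w` with `M i v - M j v = 1`, `M i w - M j w = -1`, so `{v, w} = {d, b0}`,
and for the other two vertices `u` (light to `v` and to `w`) the sign condition gives
`M i u - M j u = 0`. So `M i - M j = ±(1_d - 1_b0)`, and also `M l - M m = ±(1_d - 1_b0)`. Hence
`M i v - M j v = ε (M l v - M m v)` for all `v`, `ε = ±1`; multiply by `N v i` and sum over `v`: `1 = 0`. -/
def T3Two : Prop := ∀ (V W : Type) [Fintype V] [Fintype W] [DecidableEq V] [DecidableEq W]
  (kV : V → V → ℕ) (kW : W → W → ℕ) (M : W → V → ℤ) (N : V → W → ℤ), MPair kV kW M N →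
  ∀ a b c : V, a ≠ b → b ≠ c → a ≠ c → kV a b = 1 → kV b c = 1 → kV a c = 1 →
  ∀ i j l m : W, i ≠ j → i ≠ l → i ≠ m → j ≠ l → j ≠ m → l ≠ m →
  (∀ t, t = i ∨ t = j ∨ t = l ∨ t = m) → 2 ≤ kW i j → 2 ≤ kW l m →
  kW i l = 1 → kW i m = 1 → kW j l = 1 → kW j m = 1 → False

/-- **T3.** Light triangles are preserved.
Proof. Let `a, b, c` be a light triangle of `V`, and suppose that `W` has none. Let `X i = (M i a, M i b, M i c)`
and `D i j l` the determinant with rows `X i, X j, X l` (as in Det3).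
Fact F: if `i` is heavy to `j ≠ l` and `X i` is not `0` mod 2, then `X j` is parallel to `X i`: all `2 × 2` minors of
`X i, X j` vanish. (Say `M i a` is odd: StarB for `a, b` and `a, c` gives `M i a * X j = M j a * X i`, hence all
minors vanish because `M i a ≠ 0`. The other coordinates in the same way.)
Case 1: no heavy pair of `W` has different nonzero residues `X i`, `X j` mod 2. Then all `D i j l` are even: if
some row is `0` mod 2, or two rows are equal mod 2, this is clear; otherwise `i, j, l` are pairwise different and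
pairwise light, a light triangle. Det3 with `p = 2` (`α = N a`, `β = N b`, `γ = N c`): contradiction.
Case 2: there is a heavy pair `i, j` with `X i`, `X j` different and nonzero mod 2. If `i` is heavy to a third `l`,
then by F `X j` is parallel to `X i`; as some coordinate `M i a` of `X i` is odd, `M i a * X j = M j a * X i`
shows `X j = 0` or `X j = X i` mod 2, a contradiction. So `i` is light to all `r ≠ j`, and in the same way `j` is
light to all `r ≠ i`. Two different `r, r'` of `R = W \ {i, j}` are heavy to each other (otherwise `i, r, r'` is a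
light triangle). If `card R = 2`: T3Two. If `card R ≤ 1` let `p = kW i j`: `D` is divisible by `p` for all triples,
since two of the three are in `{i, j}` (minors of two rows among `X i, X j` are divisible by `p`: `heis`) or two are
equal. If `card R ≥ 3`: if all `X r`, `r ∈ R`, are `0` mod 2, then all `D` are even (a row in `R`, or two equal
rows) and Det3 with `p = 2`. Otherwise let `X r` be nonzero mod 2; each `s ∈ R`, `s ≠ r`, and a third element of
`R` give with F: `X s` is parallel to `X r` (all minors vanish) for all `s ∈ R`; a coordinate of `X r` is nonzero, so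
any two rows `X s, X s'` in `R` are parallel. With `p = kW i j` all `D` are divisible by `p`: two of the three
rows are in `R` (`D = 0`) or in `{i, j}` (`D` is divisible by `p`). Det3: contradiction. -/
def T3 : Prop := ∀ (V W : Type) [Fintype V] [Fintype W] [DecidableEq V] [DecidableEq W]
  (kV : V → V → ℕ) (kW : W → W → ℕ) (M : W → V → ℤ) (N : V → W → ℤ), MPair kV kW M N →
  ∀ a b c : V, a ≠ b → b ≠ c → a ≠ c → kV a b = 1 → kV b c = 1 → kV a c = 1 →
  ∃ i j l : W, i ≠ j ∧ j ≠ l ∧ i ≠ l ∧ kW i j = 1 ∧ kW j l = 1 ∧ kW i l = 1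

/-! ## Weighted girth of complete graphs -/

/-- **GirthSmall.** Proof. A cycle has at least three different vertices
(`SimpleGraph.Walk.IsCycle.three_le_length`, `IsCycle.support_nodup`). -/
def GirthSmall : Prop := ∀ (V : Type) [Fintype V] (Γ : LGraph V), Fintype.card V ≤ 2 →
  wgirth Γ = ⊤

/-- **GirthLow.** Lower bounds for complete graphs. Proof. Every cycle has length `≥ 3`, and its weight is at
least its length; so only lengths 3 (and 4) have to be looked at, where the walk is
`a - b - c - a` or `a - b - c - d - a` with different vertices (pattern matching on the walk). (1) weight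
`≥ 3`. (2) without light triangle a cycle of length 3 has an edge with label `≥ 3`, weight `≥ 4`.
(3) if two light edges never meet: length 3 has at least two heavy edges, weight `≥ 5`; length 4 has at least
one heavy edge, weight `≥ 5`. (4) without light edges the weight is twice the length. (All labels of edges are
`≥ 2`: `two_le`.) -/
def GirthLow : Prop := ∀ (V : Type) [Fintype V] (Γ : LGraph V),
  (∀ v w, v ≠ w → Γ.graph.Adj v w) →
  (3 ≤ wgirth Γ) ∧
  ((∀ a b c, a ≠ b → b ≠ c → a ≠ c → Γ.label s(a, b) = 2 → Γ.label s(b, c) = 2 →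
    Γ.label s(a, c) ≠ 2) → 4 ≤ wgirth Γ) ∧
  ((∀ a b c, a ≠ b → b ≠ c → a ≠ c → Γ.label s(a, b) = 2 → Γ.label s(b, c) ≠ 2) →
    5 ≤ wgirth Γ) ∧
  ((∀ a b, a ≠ b → Γ.label s(a, b) ≠ 2) → 6 ≤ wgirth Γ)

/-- **GirthUp.** Upper bounds from a triangle. Proof. The closed walk `a - b - c - a` is a cycle; its weight is
3 plus the number of its edges with label `≥ 3`. -/
def GirthUp : Prop := ∀ (V : Type) [Fintype V] (Γ : LGraph V),
  (∀ v w, v ≠ w → Γ.graph.Adj v w) → ∀ a b c, a ≠ b → b ≠ c → a ≠ c →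
  (Γ.label s(a, b) = 2 → Γ.label s(b, c) = 2 → Γ.label s(a, c) = 2 → wgirth Γ ≤ 3) ∧
  (Γ.label s(a, b) = 2 → Γ.label s(b, c) = 2 → wgirth Γ ≤ 4) ∧
  (Γ.label s(a, b) = 2 → wgirth Γ ≤ 5) ∧ wgirth Γ ≤ 6

end WGirth
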